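import Pool.Agent.Lib.MP_2392aa_gt.L.Scheme
import Pool.Agent.Lib.LatN.InjRat

/-!
MP_2392aa_gt, second question: definitions for the injectivity argument.

`AccP G e`: for a vector `x` of the range of the projection `e` and a vector `y` outside of it, the
stabilizer of `x` in `G` moves `y` along a set with an accumulation point.
`DenP 𝒬`: every invertible operator is, up to a scalar factor, a limit of elements of `𝒬`.
-/

open scoped Topology

namespace LatLin

section
variable {E : Type*} [NormedAddCommGroup E] [InnerProductSpace ℝ E]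

/-- accumulation of the orbits of stabilizers -/
def AccP (G : Subgroup (GE E)) (e : E →L[ℝ] E) : Prop :=
  ∀ x y : E, e x = x → e y ≠ y → ∃ z : E, ∀ ε > (0 : ℝ), ∃ h ∈ G, ∃ h' ∈ G,
    h x = x ∧ h' x = x ∧ h y ≠ h' y ∧ ‖h y - z‖ < ε ∧ ‖h' y - z‖ < ε

/-- density up to scalars -/
def DenP (𝒬 : Set (GE E)) : Prop :=
  ∀ g0 : GE E, ∃ c : ℝ, c ≠ 0 ∧ ∀ ε > (0 : ℝ), ∃ g ∈ 𝒬,
    ‖((g : GE E) : E →L[ℝ] E) - c • (g0 : E →L[ℝ] E)‖ < ε

end
end LatLin
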