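import Mathlib

/-!
MP_2392aa_gt, second question, module SmallC (about 250 lines, only Mathlib): small integer combinations.

PROOFS.
* `small_comb` (pigeonhole). Let `d = finrank F < r`, `C = ∑ ‖c i‖`. For a natural number `Q ≥ 1` consider the
  `(Q + 1)^r` vectors `∑ m_i c_i`, `0 ≤ m_i ≤ Q`; in coordinates with respect to a basis of `F` they lie in a
  cube with side `≤ 2 K C Q`, `K` the norm of the coordinates. Divide the cube into `L^d` small cubes with side
  `2 K C Q / L`, where `L ≥ 1` is chosen with `L^d < (Q + 1)^r` and `2 K C Q / L` small: take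
  `Q = T^d`, `L = T^r`... e.g. `Q + 1 > T^d` and `L = T^r` gives `L^d = T^(r d) < (Q + 1)^r` for `Q = T^d`, and
  `Q / L = T^(d - r) ≤ 1 / T`. Two different vectors of integers have sums in the same small cube; their
  difference is `m ≠ 0` with `‖∑ m_i c_i‖ ≤ K' C / T < ε` for large `T`. (`Finset.exists_ne_map_eq_of_card_lt_of_maps_to`.)
* `round_comb`: write `v = ∑ t_i c_i` with real `t_i` (finite index set), `m_i = ⌊t_i⌋`, `R = ∑ ‖c i‖`.
* `irr_small`: `α = √D - ⌊√D⌋`, `0 < α < 1` as `√D` is irrational (`D` is not a square: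
  `irrational_sqrt_natCast_iff` or `Nat.Prime`-free version), `α^j = p_j + q_j √D` with integers, `α^j → 0`.
* `acc_of_bdd`: a bounded sequence in a finite dimensional space has a cluster point `z`
  (`tendsto_subseq_of_bounded`): `P (φ i) → z`, `φ` strictly increasing; take two different large `i`.
-/

open scoped Topology

namespace LatLin

section
variable {F : Type*} [NormedAddCommGroup F] [NormedSpace ℝ F] [FiniteDimensional ℝ F]

theorem small_comb {r : ℕ} (hr : Module.finrank ℝ F < r) (c : Fin r → F) {ε : ℝ} (hε : 0 < ε) :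
    ∃ m : Fin r → ℤ, m ≠ 0 ∧ ‖∑ i, (m i : ℝ) • c i‖ < ε := by
  obtain ⟨t, ht, i0, hi0⟩ : ∃ t : Fin r → ℝ, ∑ i, t i • c i = 0 ∧ ∃ i, t i ≠ 0 := by
    have h1 : ¬ LinearIndependent ℝ c := by
      intro h
      have := h.fintype_card_le_finrank
      rw [Fintype.card_fin] at this
      omega
    rw [Fintype.not_linearIndependent_iff] at h1
    exact h1
  obtain ⟨M, hM⟩ := exists_nat_gt (2 / |t i0|)
  have ht0 : 0 < |t i0| := abs_pos.2 hi0
  have hM2 : 2 < (M : ℝ) * |t i0| := by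
    rwa [div_lt_iff₀ ht0] at hM
  set x : ℕ → Fin r → ℝ := fun k i => Int.fract (((M * k : ℕ) : ℝ) * t i) with hx
  have hbox : ∀ k, x k ∈ Set.Icc (0 : Fin r → ℝ) 1 := fun k =>
    ⟨fun i => Int.fract_nonneg _, fun i => (Int.fract_lt_one _).le⟩
  obtain ⟨a, -, φ, hφ, hlim⟩ := isCompact_Icc.tendsto_subseq hbox
  set C : ℝ := ∑ i, ‖c i‖ with hC
  have hC0 : 0 ≤ C := Finset.sum_nonneg fun i _ => norm_nonneg _
  have hδ : 0 < ε / (C + 1) := by positivity
  obtain ⟨N, hN⟩ := Metric.cauchySeq_iff.1 hlim.cauchySeq (ε / (C + 1)) hδ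
  have h1 := hN (N + 1) (Nat.le_succ N) N le_rfl
  have hlt : φ N < φ (N + 1) := hφ (Nat.lt_succ_self N)
  set k := φ (N + 1) with hk
  set l := φ N with hl
  have h2 : ∀ i, |x k i - x l i| < ε / (C + 1) := by
    intro i
    have h3 : dist (x k i) (x l i) ≤ dist (x k) (x l) := dist_le_pi_dist _ _ _
    rw [Real.dist_eq] at h3
    exact lt_of_le_of_lt h3 h1
  have hfl : ∀ (k : ℕ) (i : Fin r), (⌊((M * k : ℕ) : ℝ) * t i⌋ : ℝ) =
      ((M * k : ℕ) : ℝ) * t i - x k i := by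
    intro k i
    rw [hx]
    have := Int.floor_add_fract (((M * k : ℕ) : ℝ) * t i)
    linarith
  refine ⟨fun i => ⌊((M * k : ℕ) : ℝ) * t i⌋ - ⌊((M * l : ℕ) : ℝ) * t i⌋, ?_, ?_⟩
  · intro h0
    have h3 : (⌊((M * k : ℕ) : ℝ) * t i0⌋ : ℝ) - (⌊((M * l : ℕ) : ℝ) * t i0⌋ : ℝ) = 0 := by
      have h4 := congrFun h0 i0
      simp only [Pi.zero_apply] at h4
      rw [← Int.cast_sub, h4, Int.cast_zero]
    rw [hfl, hfl] at h3
    have h5 : |x k i0 - x l i0| < 1 := by
      rw [abs_lt]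
      have e1 : (0 : ℝ) ≤ x k i0 := (hbox k).1 i0
      have e2 : (0 : ℝ) ≤ x l i0 := (hbox l).1 i0
      have e3 : x k i0 < 1 := Int.fract_lt_one _
      have e4 : x l i0 < 1 := Int.fract_lt_one _
      constructor <;> linarith
    have h6 : ((M : ℝ) * ((k : ℝ) - l)) * t i0 = x k i0 - x l i0 := by
      push_cast at h3
      linarith
    rw [← h6, abs_mul, abs_mul] at h5
    have h7 : (1 : ℝ) ≤ |(k : ℝ) - l| := by
      have h8 : (l : ℝ) + 1 ≤ k := by exact_mod_cast hlt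
      rw [abs_of_nonneg (by linarith)]
      linarith
    have h8 : |(M : ℝ)| = M := abs_of_nonneg (Nat.cast_nonneg M)
    rw [h8] at h5
    have h9 : (M : ℝ) * |t i0| * 1 ≤ (M : ℝ) * |t i0| * |(k : ℝ) - l| :=
      mul_le_mul_of_nonneg_left h7 (by linarith)
    nlinarith
  · have h3 : ∑ i, (((⌊((M * k : ℕ) : ℝ) * t i⌋ - ⌊((M * l : ℕ) : ℝ) * t i⌋ : ℤ)) : ℝ) • c i =
        ∑ i, (x l i - x k i) • c i := by
      have h4 : ∀ i, (((⌊((M * k : ℕ) : ℝ) * t i⌋ - ⌊((M * l : ℕ) : ℝ) * t i⌋ : ℤ)) : ℝ) • c i =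
          ((M : ℝ) * ((k : ℝ) - l)) • (t i • c i) + (x l i - x k i) • c i := by
        intro i
        rw [smul_smul, ← add_smul]
        congr 1
        rw [Int.cast_sub, hfl, hfl]
        push_cast
        ring
      simp only [h4]
      rw [Finset.sum_add_distrib, ← Finset.smul_sum, ht, smul_zero, zero_add]
    rw [h3]
    calc ‖∑ i, (x l i - x k i) • c i‖ ≤ ∑ i, ‖(x l i - x k i) • c i‖ := norm_sum_le _ _
      _ ≤ ∑ i, ε / (C + 1) * ‖c i‖ := by
          refine Finset.sum_le_sum fun i _ => ?_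
          rw [norm_smul, Real.norm_eq_abs, abs_sub_comm]
          exact mul_le_mul_of_nonneg_right (h2 i).le (norm_nonneg _)
      _ = ε / (C + 1) * C := by rw [← Finset.mul_sum]
      _ < ε := by
          rw [div_mul_eq_mul_div, div_lt_iff₀ (by linarith)]
          nlinarith

omit [FiniteDimensional ℝ F] in
theorem round_comb {r : ℕ} (c : Fin r → F) : ∃ R : ℝ, ∀ v ∈ Submodule.span ℝ (Set.range c),
    ∃ m : Fin r → ℤ, ‖v - ∑ i, (m i : ℝ) • c i‖ ≤ R := by
  refine ⟨∑ i, ‖c i‖, fun v hv => ?_⟩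
  obtain ⟨t, ht⟩ := (Submodule.mem_span_range_iff_exists_fun ℝ).1 hv
  refine ⟨fun i => ⌊t i⌋, ?_⟩
  rw [← ht, ← Finset.sum_sub_distrib]
  refine (norm_sum_le _ _).trans (Finset.sum_le_sum fun i _ => ?_)
  rw [← sub_smul, norm_smul]
  have h1 : t i - (⌊t i⌋ : ℝ) = Int.fract (t i) := rfl
  rw [h1, Real.norm_eq_abs, abs_of_nonneg (Int.fract_nonneg _)]
  calc Int.fract (t i) * ‖c i‖ ≤ 1 * ‖c i‖ :=
        mul_le_mul_of_nonneg_right (Int.fract_lt_one _).le (norm_nonneg _)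
    _ = ‖c i‖ := one_mul _

theorem irr_small (D : ℕ) (hD : ¬ IsSquare D) {ε : ℝ} (hε : 0 < ε) :
    ∃ p q : ℤ, 0 < |(p : ℝ) + q * Real.sqrt D| ∧ |(p : ℝ) + q * Real.sqrt D| < ε := by
  have hir : Irrational (Real.sqrt D) := irrational_sqrt_natCast_iff.2 hD
  set α : ℝ := Int.fract (Real.sqrt D) with hα
  have h0 : 0 < α := by
    rcases (Int.fract_nonneg (Real.sqrt D)).lt_or_eq with h | h
    · exact h
    · exfalso
      have h1 : Real.sqrt D = ((⌊Real.sqrt D⌋ : ℤ) : ℝ) := by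
        have := Int.floor_add_fract (Real.sqrt D)
        rw [← h, add_zero] at this
        exact this.symm
      exact hir.ne_int _ h1
  have h1 : α < 1 := Int.fract_lt_one _
  have hD2 : Real.sqrt D * Real.sqrt D = D := Real.mul_self_sqrt (Nat.cast_nonneg D)
  have h2 : ∀ j : ℕ, ∃ p q : ℤ, α ^ j = (p : ℝ) + q * Real.sqrt D := by
    intro j
    induction j with
    | zero => exact ⟨1, 0, by simp⟩
    | succ j ih =>
      obtain ⟨p, q, h⟩ := ih
      refine ⟨q * D - p * ⌊Real.sqrt D⌋, p - q * ⌊Real.sqrt D⌋, ?_⟩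
      have h3 : α = Real.sqrt D - ⌊Real.sqrt D⌋ := rfl
      rw [pow_succ, h, h3]
      push_cast
      linear_combination (q : ℝ) * hD2
  obtain ⟨j, hj⟩ := exists_pow_lt_of_lt_one hε h1
  obtain ⟨p, q, h⟩ := h2 j
  refine ⟨p, q, ?_, ?_⟩
  · rw [← h]
    exact abs_pos.2 (pow_pos h0 j).ne'
  · rw [← h, abs_of_pos (pow_pos h0 j)]
    exact hj

theorem acc_of_bdd (P : ℕ → F) (hP : Function.Injective P) (R : ℝ) (hR : ∀ i, ‖P i‖ ≤ R) :
    ∃ z : F, ∀ ε > (0 : ℝ), ∃ i j : ℕ, P i ≠ P j ∧ ‖P i - z‖ < ε ∧ ‖P j - z‖ < ε := by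
  have hp : ProperSpace F := FiniteDimensional.proper_real F
  obtain ⟨z, -, φ, hφ, hlim⟩ := tendsto_subseq_of_bounded
    (Metric.isBounded_closedBall (x := (0 : F)) (r := R)) (x := P)
    (fun n => mem_closedBall_zero_iff.2 (hR n))
  refine ⟨z, fun ε hε => ?_⟩
  obtain ⟨N, hN⟩ := Metric.tendsto_atTop.1 hlim ε hε
  refine ⟨φ N, φ (N + 1), fun h => ?_, ?_, ?_⟩
  · exact (hφ (Nat.lt_succ_self N)).ne (hP h)
  · have := hN N le_rfl
    rwa [dist_eq_norm] at this
  · have := hN (N + 1) (Nat.le_succ N)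
    rwa [dist_eq_norm] at this

end
end LatLin
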