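import Pool.Agent.Lib.MP_2392aa_gt.J.RatA
import Pool.Agent.Lib.MP_2392aa_gt.J.SmallC
import Pool.Agent.Lib.MP_2392aa_gt.L.ArCom

/-!
MP_2392aa_gt, second question, module InnAcc (about 300 lines): inner type, accumulation and density.

PROOFS.
* `acc_I`: `e = prj δ {i0}`. If `e y ≠ y` there is `j ≠ i0` such that the block `v := (a ↦ y (j, a))` (a vector of
  `ℝ^δ`) is not zero. For `β ∈ D0` the element `tw (om (bl i0 j β))` is in `G0 μ D0` (`g0_tw`); it adds `β v` (matrix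
  times vector) to the block `i0` of `y` and fixes `x` (the block `j` of `x` is zero). Let `M ≠ 0` be from `cc_pow`:
  `tw (om (bl i0 j (M β))) = tw (om (bl i0 j β)) ^ M ∈ G` (powers of `1 + a`, `a² = 0`). Let `b` be the real basis of
  `M_δ(ℝ)` from `hD.ord`, with `d²` elements in `D0`, `d = card δ ≥ 2`; `d² > d = finrank (EuclideanSpace ℝ δ)`. By
  `small_comb` (reindex `δ × δ` by `Fin (d * d)`) for the vectors `M (b p) v` and `ε` there are integers `m_p`, not all
  zero, such that `β := ∑ m_p b p ∈ D0` satisfies `‖M β v‖ < ε`. `β ≠ 0` (independence), so `det β ≠ 0`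
  (`hD.div`) and `β v ≠ 0`. Take `z = y`, `h = tw (om (bl i0 j (M β)))`, `h' = 1`: `h y - y` is the vector with block
  `i0` equal to `M β v`, of norm `‖M β v‖`.
* `inv_rat`: let `x` be an invertible matrix with `Rat D0 x`. Let `b'` be the basis of the matrices from
  `LatN.blkO_ord` (the ring `blkO μ D0` is the integer span of a real basis). `y ↦ N x y` (`N x ∈ blkO`) maps `blkO` to
  `blkO` and is injective: its matrix in the basis `b'` is an integer matrix with determinant `Δ ≠ 0`; with the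
  adjugate there is `y ∈ blkO` with `N x y = Δ • 1`, so `x⁻¹ = (N / Δ) y` is rational.
* `den_I`: the rational matrices are dense: `∑ t_i b'_i` with real `t_i` is approximated by rational `t_i`. Given `g0`
  take `c = 1` and rational matrices `A` close to `mt g0`: `om` is continuous, the invertible operators are open, so
  `om A` is invertible for `A` close to `mt g0`, and it is in `GQ μ D0` by `inv_rat`
  (`mt` of the inverse operator is the inverse matrix).
-/

open scoped ContDiff Topology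
open LatN (DivO blo blkO unitI En)

namespace LatLin

section
variable {ν : Type*} [Fintype ν] [DecidableEq ν]

private theorem ia_nat {R : Type*} [Ring R] [Module ℝ R] (S : Subring R) {x : R} (hx : x ∈ S)
    (n : ℕ) : (n : ℝ) • x ∈ S := by
  rw [Nat.cast_smul_eq_nsmul]
  exact nsmul_mem hx n

private theorem ia_int {R : Type*} [Ring R] [Module ℝ R] (S : Subring R) {x : R} (hx : x ∈ S)
    (n : ℤ) : (n : ℝ) • x ∈ S := by
  rw [Int.cast_smul_eq_zsmul]
  exact zsmul_mem hx n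

private theorem ia_aeval {S : Subring (Matrix ν ν ℝ)} {y : Matrix ν ν ℝ} (hy : y ∈ S)
    (P : Polynomial ℤ) : Polynomial.aeval y P ∈ S := by
  rw [Polynomial.aeval_eq_sum_range]
  exact sum_mem fun i _ => zsmul_mem (pow_mem hy i) _

private theorem ia_poly {S : Subring (Matrix ν ν ℝ)} {y : Matrix ν ν ℝ} (hy : y ∈ S)
    (hdet : y.det ≠ 0) : ∀ (n : ℕ) (P : Polynomial ℤ), P ≠ 0 → P.natDegree ≤ n →
      Polynomial.aeval y P = 0 → ∃ N : ℤ, N ≠ 0 ∧ ∃ z ∈ S, y * z = N • (1 : Matrix ν ν ℝ) := by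
  intro n
  induction n with
  | zero =>
    intro P hP hd h
    have h1 : P.coeff 0 ≠ 0 := by
      intro h0
      apply hP
      rw [Polynomial.eq_C_of_natDegree_le_zero hd, h0, Polynomial.C_0]
    refine ⟨P.coeff 0, h1, 0, S.zero_mem, ?_⟩
    rw [Polynomial.eq_C_of_natDegree_le_zero hd, Polynomial.aeval_C] at h
    rw [mul_zero, ← h, Algebra.algebraMap_eq_smul_one]
  | succ n ih =>
    intro P hP hd h
    have h1 : y * Polynomial.aeval y P.divX + P.coeff 0 • (1 : Matrix ν ν ℝ) = 0 := by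
      rw [← h]
      conv_rhs => rw [← P.X_mul_divX_add]
      rw [map_add, map_mul, Polynomial.aeval_X, Polynomial.aeval_C, Algebra.algebraMap_eq_smul_one]
    by_cases h0 : P.coeff 0 = 0
    · rw [h0, zero_smul, add_zero] at h1
      have h2 : Polynomial.aeval y P.divX = 0 := by
        have h3 : y⁻¹ * (y * Polynomial.aeval y P.divX) = 0 := by rw [h1, mul_zero]
        rwa [← mul_assoc, Matrix.nonsing_inv_mul _ (isUnit_iff_ne_zero.2 hdet), one_mul] at h3
      refine ih P.divX ?_ ?_ h2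
      · intro h3
        apply hP
        rw [← P.X_mul_divX_add, h3, h0]
        simp
      · rw [Polynomial.natDegree_divX_eq_natDegree_tsub_one]
        omega
    · refine ⟨P.coeff 0, h0, -Polynomial.aeval y P.divX, S.neg_mem (ia_aeval hy _), ?_⟩
      rw [mul_neg]
      exact (eq_neg_of_add_eq_zero_right h1).symm

private theorem ia_integral {S : Subring (Matrix ν ν ℝ)} (hS : LatN.IsOrd ν S)
    {y : Matrix ν ν ℝ} (hy : y ∈ S) : IsIntegral ℤ y := by
  obtain ⟨b, hb⟩ := hS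
  refine IsIntegral.of_mem_of_fg (subalgebraOfSubring S) ?_ y hy
  have h1 : (subalgebraOfSubring S).toSubmodule = Submodule.span ℤ (Set.range b) := by
    ext x
    exact hb x
  rw [h1]
  exact Submodule.fg_span (Set.finite_range b)

/-- the inverse of a rational matrix is rational -/
private theorem ia_inv {S : Subring (Matrix ν ν ℝ)} (hS : LatN.IsOrd ν S) {x : Matrix ν ν ℝ}
    (hdx : x.det ≠ 0) (h : ∃ M : ℕ, M ≠ 0 ∧ (M : ℝ) • x ∈ S) :
    ∃ M : ℕ, M ≠ 0 ∧ (M : ℝ) • x⁻¹ ∈ S := by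
  obtain ⟨M, hM, hy⟩ := h
  have hM' : (M : ℝ) ≠ 0 := Nat.cast_ne_zero.2 hM
  have hdy : ((M : ℝ) • x).det ≠ 0 := by
    rw [Matrix.det_smul]
    exact mul_ne_zero (pow_ne_zero _ hM') hdx
  obtain ⟨P, hP, hPy⟩ := ia_integral hS hy
  obtain ⟨N, hN, z, hz, hyz⟩ := ia_poly hy hdy P.natDegree P hP.ne_zero le_rfl hPy
  refine ⟨N.natAbs, Int.natAbs_ne_zero.2 hN, ?_⟩
  have h1 : (N : ℝ) • x⁻¹ = (M : ℝ) • z := by
    have h2 : x⁻¹ * (((M : ℝ) • x) * z) = x⁻¹ * (N • (1 : Matrix ν ν ℝ)) := by rw [hyz]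
    rw [← mul_assoc, Matrix.mul_smul, Matrix.nonsing_inv_mul _ (isUnit_iff_ne_zero.2 hdx),
      Matrix.smul_mul, one_mul] at h2
    rw [h2, ← Int.cast_smul_eq_zsmul ℝ, Matrix.mul_smul, mul_one]
  have h2 : (N : ℝ) • x⁻¹ ∈ S := by
    rw [h1]
    exact ia_nat _ hz M
  rcases Int.natAbs_eq N with h3 | h3
  · rw [h3] at h2
    exact_mod_cast h2
  · rw [h3, Int.cast_neg, Int.cast_natCast, neg_smul] at h2
    have h4 := S.neg_mem h2
    rwa [neg_neg] at h4

private noncomputable def ia_omL (ν : Type*) [Fintype ν] [DecidableEq ν] :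
    Matrix ν ν ℝ ≃ₗ[ℝ] (En ν →L[ℝ] En ν) where
  toFun := om
  invFun := mt
  map_add' := fun A B => map_add (Matrix.toEuclideanCLM (n := ν) (𝕜 := ℝ)) A B
  map_smul' := fun c A => map_smul (Matrix.toEuclideanCLM (n := ν) (𝕜 := ℝ)) c A
  left_inv := fun A => mt_om A
  right_inv := fun a => om_mt a

private theorem ia_omL_apply (A : Matrix ν ν ℝ) : ia_omL ν A = om A := rfl

private theorem ia_om_one : om (1 : Matrix ν ν ℝ) = 1 :=
  map_one (Matrix.toEuclideanCLM (n := ν) (𝕜 := ℝ))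

/-- an invertible matrix as an element of the linear group -/
private noncomputable def ia_g (A : Matrix ν ν ℝ) (h : A.det ≠ 0) : GE (En ν) :=
  ContinuousLinearEquiv.equivOfInverse (om A) (om A⁻¹)
    (fun x => by
      change (om A⁻¹ ∘L om A) x = x
      rw [← om_comp, Matrix.nonsing_inv_mul _ (isUnit_iff_ne_zero.2 h), ia_om_one]
      rfl)
    (fun x => by
      change (om A ∘L om A⁻¹) x = x
      rw [← om_comp, Matrix.mul_nonsing_inv _ (isUnit_iff_ne_zero.2 h), ia_om_one]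
      rfl)

private theorem ia_mt_g (A : Matrix ν ν ℝ) (h : A.det ≠ 0) :
    mt ((ia_g A h : GE (En ν)) : En ν →L[ℝ] En ν) = A := mt_om A

private theorem ia_mt_g' (A : Matrix ν ν ℝ) (h : A.det ≠ 0) :
    mt (((ia_g A h)⁻¹ : GE (En ν)) : En ν →L[ℝ] En ν) = A⁻¹ := mt_om A⁻¹

private theorem ia_co_g (A : Matrix ν ν ℝ) (h : A.det ≠ 0) :
    ((ia_g A h : GE (En ν)) : En ν →L[ℝ] En ν) = om A := rfl

end

section
variable {E : Type*} [NormedAddCommGroup E] [InnerProductSpace ℝ E]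

private theorem ia_pow {a : E →L[ℝ] E} (h : a ∘L a = 0) (n : ℕ) (y : E) :
    (tw a ^ n) y = y + (n : ℝ) • a y := by
  have h1 : ∀ x, a (a x) = 0 := fun x => by simpa using congrArg (fun f => f x) h
  induction n with
  | zero =>
    rw [pow_zero, Nat.cast_zero, zero_smul, add_zero]
    rfl
  | succ n ih =>
    rw [pow_succ']
    change tw a ((tw a ^ n) y) = _
    rw [ih, tw_apply h, map_add, map_smul, h1, smul_zero, add_zero, Nat.cast_succ, add_smul,
      one_smul, add_assoc]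

end

section
variable {μ δ : Type*} [Fintype μ] [DecidableEq μ] [Fintype δ] [DecidableEq δ]
  {D0 : Subring (Matrix δ δ ℝ)}

private theorem ia_bl (i j : μ) (x : Matrix δ δ ℝ) (y : En (μ × δ)) (p : μ × δ) :
    om (bl i j x) y p = if p.1 = i then ∑ c, x p.2 c * y (j, c) else 0 := by
  rw [om_apply, Fintype.sum_prod_type]
  split_ifs with hp
  · rw [Finset.sum_eq_single j]
    · refine Finset.sum_congr rfl fun c _ => ?_
      change (if p.1 = i ∧ j = j then x p.2 c else 0) * y (j, c) = _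
      rw [if_pos ⟨hp, rfl⟩]
    · intro j' _ hj'
      refine Finset.sum_eq_zero fun c _ => ?_
      simp only [bl]
      rw [if_neg fun h => hj' h.2, zero_mul]
    · intro h
      exact absurd (Finset.mem_univ _) h
  · refine Finset.sum_eq_zero fun j' _ => Finset.sum_eq_zero fun c _ => ?_
    simp only [bl]
    rw [if_neg fun h => hp h.1, zero_mul]

private theorem ia_bl_sq {i j : μ} (hij : i ≠ j) (x : Matrix δ δ ℝ) :
    om (bl i j x : Matrix (μ × δ) (μ × δ) ℝ) ∘L om (bl i j x) = 0 := by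
  ext y p
  change om (bl i j x) (om (bl i j x) y) p = (0 : ℝ)
  rw [ia_bl]
  split_ifs with hp
  · refine Finset.sum_eq_zero fun c _ => ?_
    rw [ia_bl, if_neg (Ne.symm hij), mul_zero]
  · rfl

/-- the block of a vector -/
private noncomputable def ia_v (j : μ) (y : En (μ × δ)) : En δ := WithLp.toLp 2 fun c => y (j, c)

omit [Fintype μ] [DecidableEq μ] [Fintype δ] [DecidableEq δ] in
private theorem ia_v_apply (j : μ) (y : En (μ × δ)) (c : δ) : ia_v j y c = y (j, c) := rfl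

private theorem ia_norm (i j : μ) (x : Matrix δ δ ℝ) (y : En (μ × δ)) :
    ‖om (bl i j x) y‖ = ‖om x (ia_v j y)‖ := by
  rw [EuclideanSpace.norm_eq, EuclideanSpace.norm_eq]
  congr 1
  rw [Fintype.sum_prod_type, Finset.sum_eq_single i]
  · refine Finset.sum_congr rfl fun c _ => ?_
    rw [ia_bl, if_pos rfl, om_apply]
    rfl
  · intro i' _ hi'
    refine Finset.sum_eq_zero fun c _ => ?_
    rw [ia_bl, if_neg hi', norm_zero, zero_pow two_ne_zero]
  · intro h
    exact absurd (Finset.mem_univ _) h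

theorem acc_I (hD : DivO δ D0) (hδ : 2 ≤ Fintype.card δ) (i0 : μ)
    {G : Subgroup (GE (En (μ × δ)))} (hG : G ∈ CC μ D0) : AccP G (prj δ {i0}) := by
  classical
  intro x y hx hy
  obtain ⟨j, c0, hj, hc0⟩ : ∃ (j : μ) (c0 : δ), i0 ≠ j ∧ y (j, c0) ≠ 0 := by
    by_contra hcon
    push Not at hcon
    apply hy
    refine PiLp.ext fun p => ?_
    rw [prj_apply]
    split_ifs with hp
    · rfl
    · rw [Finset.mem_singleton] at hp
      exact (hcon p.1 p.2 (Ne.symm hp)).symm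
  have hx0 : ∀ c : δ, x (j, c) = 0 := by
    intro c
    rw [← hx, prj_apply, if_neg]
    rw [Finset.mem_singleton]
    exact Ne.symm hj
  refine ⟨y, fun ε hε => ?_⟩
  obtain ⟨M, hM, hMG⟩ := cc_pow hG
  have hM' : (M : ℝ) ≠ 0 := Nat.cast_ne_zero.2 hM
  obtain ⟨b, hb⟩ := hD.ord
  have hv : ia_v j y ≠ 0 := by
    intro h
    apply hc0
    rw [← ia_v_apply, h]
    rfl
  let σ : Fin (Fintype.card (δ × δ)) ≃ δ × δ := (Fintype.equivFin _).symm
  have hcard : Module.finrank ℝ (En δ) < Fintype.card (δ × δ) := by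
    rw [finrank_euclideanSpace, Fintype.card_prod]
    nlinarith
  obtain ⟨m, hm, hmε⟩ := small_comb hcard (fun r => (M : ℝ) • om (b (σ r)) (ia_v j y)) hε
  set β : Matrix δ δ ℝ := ∑ r, (m r : ℝ) • b (σ r) with hβ
  have hβD : β ∈ D0 := by
    refine sum_mem fun r _ => ia_int _ ?_ _
    rw [hb]
    exact Submodule.subset_span ⟨_, rfl⟩
  have hβ0 : β ≠ 0 := by
    intro h
    apply hm
    have hli := (b.reindex σ.symm).linearIndependent
    rw [Fintype.linearIndependent_iff] at hli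
    have h1 := hli (fun r => (m r : ℝ)) (by
      rw [← h, hβ]
      refine Finset.sum_congr rfl fun r _ => ?_
      rw [Module.Basis.reindex_apply, Equiv.symm_symm])
    funext r
    have h2 := h1 r
    exact_mod_cast h2
  have hdet : β.det ≠ 0 := hD.div β hβD hβ0
  have hβv : om β (ia_v j y) ≠ 0 := by
    intro h
    apply hv
    have h1 : om β⁻¹ (om β (ia_v j y)) = ia_v j y := by
      change (om β⁻¹ ∘L om β) (ia_v j y) = _
      rw [← om_comp, Matrix.nonsing_inv_mul _ (isUnit_iff_ne_zero.2 hdet), ia_om_one]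
      rfl
    rw [← h1, h, map_zero]
  have hsum : (M : ℝ) • om β (ia_v j y) =
      ∑ r, (m r : ℝ) • ((M : ℝ) • om (b (σ r)) (ia_v j y)) := by
    have h1 : om β = ∑ r, (m r : ℝ) • om (b (σ r)) := by
      rw [← ia_omL_apply, hβ, map_sum]
      refine Finset.sum_congr rfl fun r _ => ?_
      rw [map_smul, ia_omL_apply]
    rw [h1, sum_apply, Finset.smul_sum]
    refine Finset.sum_congr rfl fun r _ => ?_
    rw [smul_apply, smul_comm]
  have hsq := ia_bl_sq (δ := δ) hj β
  have hmem : tw (om (bl i0 j β)) ^ M ∈ G := hMG _ (g0_tw hj hβD)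
  have hy1 : (tw (om (bl i0 j β)) ^ M) y - y = (M : ℝ) • om (bl i0 j β) y := by
    rw [ia_pow hsq]
    abel
  have hx1 : om (bl i0 j β) x = 0 := by
    refine PiLp.ext fun p => ?_
    rw [ia_bl]
    split_ifs
    · refine Finset.sum_eq_zero fun c _ => ?_
      rw [hx0, mul_zero]
    · rfl
  refine ⟨tw (om (bl i0 j β)) ^ M, hmem, 1, G.one_mem, ?_, rfl, ?_, ?_, ?_⟩
  · rw [ia_pow hsq, hx1, smul_zero, add_zero]
  · intro h
    have h1 : (tw (om (bl i0 j β)) ^ M) y - y = 0 := by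
      rw [h]
      exact sub_self _
    rw [hy1] at h1
    have h2 : om (bl i0 j β) y = 0 := by
      rcases smul_eq_zero.1 h1 with h3 | h3
      · exact absurd h3 hM'
      · exact h3
    have h4 := ia_norm i0 j β y
    rw [h2, norm_zero] at h4
    exact hβv (norm_eq_zero.1 h4.symm)
  · rw [hy1, norm_smul, ia_norm, ← norm_smul, hsum]
    exact hmε
  · change ‖y - y‖ < ε
    rw [sub_self, norm_zero]
    exact hε

theorem inv_rat (hD : DivO δ D0) {x : Matrix (μ × δ) (μ × δ) ℝ} (hx : Rat D0 x)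
    (h : x.det ≠ 0) : Rat D0 x⁻¹ :=
  ia_inv (LatN.blkO_ord (μ := μ) hD.ord) h hx

private theorem ia_rat_smul {x : Matrix (μ × δ) (μ × δ) ℝ} (hx : x ∈ blkO μ D0) (q : ℚ) :
    Rat D0 ((q : ℝ) • x) := by
  refine ⟨q.den, q.den_nz, ?_⟩
  have h1 : ((q.den : ℝ)) • ((q : ℝ) • x) = (q.num : ℝ) • x := by
    rw [smul_smul]
    congr 1
    have h2 : (q.den : ℝ) ≠ 0 := Nat.cast_ne_zero.2 q.den_nz
    rw [mul_comm]
    exact_mod_cast q.mul_den_eq_num
  rw [h1]
  exact ia_int _ hx _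

theorem den_I (hD : DivO δ D0) : DenP (GQ μ D0) := by
  classical
  intro g0
  refine ⟨1, one_ne_zero, fun ε hε => ?_⟩
  obtain ⟨b, hb⟩ := LatN.blkO_ord (μ := μ) hD.ord
  let Φ : (((μ × δ) × (μ × δ)) → ℝ) →ₗ[ℝ] Matrix (μ × δ) (μ × δ) ℝ :=
    (b.equivFun.symm : (((μ × δ) × (μ × δ)) → ℝ) ≃ₗ[ℝ] Matrix (μ × δ) (μ × δ) ℝ).toLinearMap
  have hΦ : Continuous fun t => (ia_omL (μ × δ)) (Φ t) :=
    ((ia_omL (μ × δ)).toLinearMap ∘ₗ Φ).continuous_of_finiteDimensional
  have hdet : Continuous fun t => (Φ t).det :=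
    Continuous.matrix_det Φ.continuous_of_finiteDimensional
  set A0 : Matrix (μ × δ) (μ × δ) ℝ := mt (g0 : En (μ × δ) →L[ℝ] En (μ × δ)) with hA0
  have hA0det : A0.det ≠ 0 := by
    have h1 : mt ((g0⁻¹ : GE (En (μ × δ))) : En (μ × δ) →L[ℝ] En (μ × δ)) * A0 = 1 := by
      have h2 : mt (((g0⁻¹ * g0 : GE (En (μ × δ)))) : En (μ × δ) →L[ℝ] En (μ × δ)) =
          mt ((g0⁻¹ : GE (En (μ × δ))) : En (μ × δ) →L[ℝ] En (μ × δ)) * A0 :=
        map_mul (Matrix.toEuclideanCLM (n := μ × δ) (𝕜 := ℝ)).symm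
          ((g0⁻¹ : GE (En (μ × δ))) : En (μ × δ) →L[ℝ] En (μ × δ))
          (g0 : En (μ × δ) →L[ℝ] En (μ × δ))
      rw [← h2, inv_mul_cancel]
      exact map_one (Matrix.toEuclideanCLM (n := μ × δ) (𝕜 := ℝ)).symm
    intro h0
    have h3 := congrArg Matrix.det h1
    rw [Matrix.det_mul, h0, mul_zero, Matrix.det_one] at h3
    exact zero_ne_one h3
  set t0 : ((μ × δ) × (μ × δ)) → ℝ := b.equivFun A0 with ht0
  have hΦt0 : Φ t0 = A0 := b.equivFun.symm_apply_apply A0
  have hU : IsOpen {t : ((μ × δ) × (μ × δ)) → ℝ | ‖(ia_omL (μ × δ)) (Φ t) -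
      (1 : ℝ) • (g0 : En (μ × δ) →L[ℝ] En (μ × δ))‖ < ε ∧ (Φ t).det ≠ 0} := by
    refine IsOpen.and ?_ ?_
    · exact isOpen_lt (hΦ.sub continuous_const).norm continuous_const
    · exact isOpen_ne_fun hdet continuous_const
  have hmem : t0 ∈ {t : ((μ × δ) × (μ × δ)) → ℝ | ‖(ia_omL (μ × δ)) (Φ t) -
      (1 : ℝ) • (g0 : En (μ × δ) →L[ℝ] En (μ × δ))‖ < ε ∧ (Φ t).det ≠ 0} := by
    refine ⟨?_, ?_⟩
    · rw [hΦt0, ia_omL_apply, hA0, om_mt, one_smul, sub_self, norm_zero]
      exact hε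
    · rw [hΦt0]
      exact hA0det
  have hdense : DenseRange (Pi.map fun (_ : (μ × δ) × (μ × δ)) (q : ℚ) => (q : ℝ)) :=
    DenseRange.piMap fun _ => Rat.denseRange_cast
  obtain ⟨q, hq1, hq2⟩ := hdense.exists_mem_open hU ⟨t0, hmem⟩
  set A : Matrix (μ × δ) (μ × δ) ℝ :=
    Φ ((Pi.map fun (_ : (μ × δ) × (μ × δ)) (q : ℚ) => (q : ℝ)) q) with hA
  have hrat : Rat D0 A := by
    have h1 : A = ∑ p, ((q p : ℚ) : ℝ) • b p := by
      rw [hA]
      exact b.equivFun_symm_apply _
    rw [h1]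
    have h2 : ∀ s : Finset ((μ × δ) × (μ × δ)), Rat D0 (∑ p ∈ s, ((q p : ℚ) : ℝ) • b p) := by
      intro s
      induction s using Finset.induction_on with
      | empty =>
        rw [Finset.sum_empty]
        refine ⟨1, one_ne_zero, ?_⟩
        rw [smul_zero]
        exact (blkO μ D0).zero_mem
      | insert p s hp ih =>
        rw [Finset.sum_insert hp]
        refine rat_add (ia_rat_smul ?_ _) ih
        rw [hb]
        exact Submodule.subset_span ⟨_, rfl⟩
    exact h2 _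
  refine ⟨ia_g A hq2, ⟨?_, ?_⟩, ?_⟩
  · rw [ia_mt_g]
    exact hrat
  · rw [ia_mt_g']
    exact inv_rat hD hrat hq2
  · rw [ia_co_g]
    exact hq1

end
end LatLin
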