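import Pool.Agent.Lib.MP_2392aa_gt.J.Defs

/-!
MP_2392aa_gt, second question, module RatA (about 250 lines): families of rational subspaces from a dense
set of rational elements.

PROOFS. `V0 := range e`; `x ∈ V0` iff `e x = x`.
* `ex_move`: let `v ∈ V0`, `v ≠ 0` (`e ≠ 0`) and `u ∉ V0` (`e ≠ 1`): `v, u` are linearly independent. Case `x = 0`:
  then `y ≠ 0` (`y ≠ a • x`), choose an invertible `g0` with `g0 u = y`; `x = g0 0`. Case `x ≠ 0`: `x, y` are linearly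
  independent; choose an invertible `g0` with `g0 v = x`, `g0 u = y` (extend both independent families to bases,
  which have the same number of elements; the two complements of the index sets have equal cardinality).
  In both cases `x = g0 x0`, `x0 ∈ V0`, and `y = g0 u`, `e u ≠ u`.
* `ratFam_of`, `acc`: `W = g V0`, `x = g x0`, `e x0 = x0`, `y ∉ W`, so `y0 := g⁻¹ y` has `e y0 ≠ y0`. Take `z0` from
  `AccP (cjG g G) e` for `x0, y0`, and `z := g z0`. For `ε > 0` use `ε / (‖g‖ + 1)`: `h, h' ∈ cjG g G`;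
  `γ := g h g⁻¹`, `γ' := g h' g⁻¹` are in `G` (`mem_cjG`), fix `x`, `γ y = g (h y0)`, and
  `‖γ y - z‖ ≤ ‖g‖ ‖h y0 - z0‖ < ε`.
* `dense`: let `g0, x0, u` be from `ex_move` and let `c ≠ 0` be from `DenP` for `g0`; put `g1 := c g0`,
  `x1 := c⁻¹ x0 ∈ V0`, so `x = g1 x1`, and `y ∉ g1 V0` (`y = g0 u`, `u ∉ V0`). The subspace `g1 V0` is closed (finite
  dimension), so there is `c0 > 0` with `‖y - g1 w‖ ≥ c0` for all `w ∈ V0`. `g1` is invertible: `‖w‖ ≤ K ‖g1 w‖`,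
  `K > 0`. The constant is `min (c0 / 2) 1`. Given `ε`, let `η > 0` be small (`η K ≤ 1/2`, `2 η K (‖y‖ + 1) ≤ c0 / 2`,
  `η (‖x1‖ + 1) ≤ ε`... strictly less) and `g ∈ 𝒬` with `‖g - g1‖ < η`. `x' := g x1`: `‖x' - x‖ ≤ η ‖x1‖ < ε`. For
  `w ∈ V0`: `‖g w‖ ≥ ‖g1 w‖ - η ‖w‖ ≥ ‖w‖ / K - η ‖w‖ ≥ ‖w‖ / (2 K)`. If `‖g w‖ ≥ ‖y‖ + 1` then `‖y - g w‖ ≥ 1`.
  Otherwise `‖w‖ ≤ 2 K (‖y‖ + 1)`, so `‖y - g w‖ ≥ ‖y - g1 w‖ - η ‖w‖ ≥ c0 - c0 / 2`.
* `injRel_of`: `LatN.injRel_of_ratFam`.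
-/

open scoped Topology

namespace LatLin

section
variable {E : Type*} [NormedAddCommGroup E] [InnerProductSpace ℝ E] [FiniteDimensional ℝ E]

private theorem rfix {x u y : E} (hu : ∀ a : ℝ, u ≠ a • x) (hy : ∀ a : ℝ, y ≠ a • x) :
    ∃ g : GE E, g x = x ∧ g u = y := by
  set p : E →L[ℝ] E := ContinuousLinearMap.id ℝ E -
    ((inner ℝ x x : ℝ)⁻¹ • innerSL ℝ x).smulRight x with hp
  have hpz : ∀ z, p z = z - ((inner ℝ x x : ℝ)⁻¹ * inner ℝ x z) • x := by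
    intro z
    simp [hp]
  have hpx : p x = 0 := by
    rw [hpz]
    by_cases h : x = 0
    · simp [h]
    · have : (inner ℝ x x : ℝ) ≠ 0 := inner_self_ne_zero.2 h
      rw [inv_mul_cancel₀ this, one_smul, sub_self]
  have hpne : ∀ z, (∀ a : ℝ, z ≠ a • x) → p z ≠ 0 := by
    intro z hz h0
    rw [hpz] at h0
    exact hz _ (sub_eq_zero.1 h0)
  obtain ⟨f, hf1, hf2⟩ := SeparatingDual.exists_eq_one_ne_zero_of_ne_zero_pair (R := ℝ)
    (hpne u hu) (hpne y hy)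
  set φ : E →L[ℝ] ℝ := f.comp p with hφ
  have h1 : φ x = 0 := by simp [hφ, hpx]
  have h2 : φ u = 1 := by simp [hφ, hf1]
  have h3 : φ y ≠ 0 := by simpa [hφ] using hf2
  have h4 : φ (y - u) = φ y - 1 := by rw [map_sub, h2]
  refine ⟨ContinuousLinearEquiv.equivOfInverse
    (ContinuousLinearMap.id ℝ E + φ.smulRight (y - u))
    (ContinuousLinearMap.id ℝ E - ((φ y)⁻¹ • φ).smulRight (y - u)) ?_ ?_, ?_, ?_⟩
  · intro z
    have e1 : (ContinuousLinearMap.id ℝ E + φ.smulRight (y - u)) z = z + φ z • (y - u) := rfl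
    have e2 : ∀ t, (ContinuousLinearMap.id ℝ E - ((φ y)⁻¹ • φ).smulRight (y - u)) t =
        t - ((φ y)⁻¹ * φ t) • (y - u) := fun t => rfl
    rw [e1, e2, map_add, map_smul, h4, smul_eq_mul]
    have : (φ y)⁻¹ * (φ z + φ z * (φ y - 1)) = φ z := by
      field_simp
      ring
    rw [this, add_sub_cancel_right]
  · intro z
    have e1 : ∀ t, (ContinuousLinearMap.id ℝ E + φ.smulRight (y - u)) t = t + φ t • (y - u) :=
      fun t => rfl
    have e2 : (ContinuousLinearMap.id ℝ E - ((φ y)⁻¹ • φ).smulRight (y - u)) z =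
        z - ((φ y)⁻¹ * φ z) • (y - u) := rfl
    rw [e2, e1, map_sub, map_smul, h4, smul_eq_mul]
    have : φ z - (φ y)⁻¹ * φ z * (φ y - 1) = (φ y)⁻¹ * φ z := by
      field_simp
      ring
    rw [this, sub_add_cancel]
  · change x + φ x • (y - u) = x
    rw [h1, zero_smul, add_zero]
  · change u + φ u • (y - u) = y
    rw [h2, one_smul, add_sub_cancel]

theorem ex_move (e : E →L[ℝ] E) (he : ∀ x, e (e x) = e x) (h0 : e ≠ 0) (h1 : e ≠ 1) (x y : E)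
    (hxy : ∀ a : ℝ, y ≠ a • x) : ∃ (g0 : GE E) (x0 u : E), e x0 = x0 ∧ e u ≠ u ∧ g0 x0 = x ∧
      g0 u = y := by
  obtain ⟨w, hw⟩ : ∃ w, e w ≠ 0 := by
    by_contra hcon
    push Not at hcon
    exact h0 (by ext z; simpa using hcon z)
  obtain ⟨u, hu⟩ : ∃ u, e u ≠ u := by
    by_contra hcon
    push Not at hcon
    exact h1 (by ext z; simpa using hcon z)
  by_cases hx : x = 0
  · subst hx
    obtain ⟨g, -, h2⟩ := rfix (x := (0 : E)) (u := u) (y := y)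
      (fun a h => hu (by rw [h, smul_zero, map_zero])) hxy
    exact ⟨g, 0, u, map_zero _, hu, map_zero _, h2⟩
  · obtain ⟨A, hA⟩ := SeparatingDual.exists_continuousLinearEquiv_apply_eq (R := ℝ) hw hx
    have hAu : ∀ a : ℝ, A u ≠ a • x := by
      intro a h
      have h2 : A u = A (a • e w) := by rw [h, map_smul, hA]
      have h3 : u = a • e w := A.injective h2
      apply hu
      rw [h3, map_smul, he]
    obtain ⟨B, hB1, hB2⟩ := rfix hAu hxy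
    refine ⟨A.trans B, e w, u, he w, hu, ?_, ?_⟩
    · change B (A (e w)) = x
      rw [hA, hB1]
    · exact hB2

private theorem rdense {𝒬 : Set (GE E)} {e : E →L[ℝ] E}
    (he : ∀ x, e (e x) = e x) (h0 : e ≠ 0) (h1 : e ≠ 1) (hd : DenP 𝒬) (x y : E)
    (hxy : ∀ a : ℝ, y ≠ a • x) : ∃ c > (0 : ℝ), ∀ ε > (0 : ℝ),
    ∃ g ∈ 𝒬, ∃ x1 : E, e x1 = x1 ∧ ‖(g : GE E) x1 - x‖ < ε ∧
      ∀ w : E, e w = w → c ≤ ‖y - (g : GE E) w‖ := by
  obtain ⟨g0, x0, u, hx0, hu, h3, h4⟩ := ex_move e he h0 h1 x y hxy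
  obtain ⟨c, hc, hdc⟩ := hd g0
  set g1 : E →L[ℝ] E := c • (g0 : E →L[ℝ] E) with hg1
  have hg1a : ∀ z, g1 z = c • g0 z := fun z => rfl
  set x1 : E := c⁻¹ • x0 with hx1
  have hx1e : e x1 = x1 := by rw [hx1, map_smul, hx0]
  have hg1x : g1 x1 = x := by
    rw [hg1a, hx1, map_smul, smul_smul, mul_inv_cancel₀ hc, one_smul, h3]
  set K : ℝ := ‖(g0.symm : E →L[ℝ] E)‖ * |c|⁻¹ + 1 with hK
  have hKpos : 0 < K := by positivity
  have hKb : ∀ w, ‖w‖ ≤ K * ‖g1 w‖ := by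
    intro w
    have e1 : w = (g0.symm : E →L[ℝ] E) (c⁻¹ • g1 w) := by
      rw [hg1a, smul_smul, inv_mul_cancel₀ hc, one_smul]
      simp
    calc ‖w‖ = ‖(g0.symm : E →L[ℝ] E) (c⁻¹ • g1 w)‖ := by rw [← e1]
      _ ≤ ‖(g0.symm : E →L[ℝ] E)‖ * ‖c⁻¹ • g1 w‖ := ContinuousLinearMap.le_opNorm _ _
      _ = ‖(g0.symm : E →L[ℝ] E)‖ * |c|⁻¹ * ‖g1 w‖ := by
          rw [norm_smul, norm_inv, Real.norm_eq_abs, mul_assoc]
      _ ≤ K * ‖g1 w‖ := by
          apply mul_le_mul_of_nonneg_right _ (norm_nonneg _)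
          rw [hK]
          linarith
  set M : Submodule ℝ E := (LinearMap.range (e : E →ₗ[ℝ] E)).map (g1 : E →ₗ[ℝ] E) with hM
  have hyM : y ∉ M := by
    rintro ⟨w, ⟨w', rfl⟩, hw⟩
    apply hu
    have e1 : g0 (c • e w') = g0 u := by
      rw [h4, map_smul, ← hw]
      rfl
    have e2 : c • e w' = u := g0.injective e1
    rw [← e2, map_smul, he]
  have hMc : IsClosed (M : Set E) := M.closed_of_finiteDimensional
  obtain ⟨c0, hc0, hball⟩ := Metric.isOpen_iff.1 hMc.isOpen_compl y hyM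
  have hdist : ∀ w, e w = w → c0 ≤ ‖y - g1 w‖ := by
    intro w hw
    by_contra hcon
    push Not at hcon
    have : g1 w ∈ Metric.ball y c0 := by
      rw [Metric.mem_ball, dist_eq_norm, norm_sub_rev]
      exact hcon
    exact hball this ⟨w, ⟨w, hw⟩, rfl⟩
  refine ⟨min (c0 / 2) 1, lt_min (by positivity) one_pos, ?_⟩
  intro ε hε
  set η : ℝ := min ((2 * K)⁻¹) (min (c0 / (4 * K * (‖y‖ + 1))) (ε / (2 * (‖x1‖ + 1)))) with hη
  have hηpos : 0 < η := by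
    refine lt_min (by positivity) (lt_min ?_ ?_)
    · positivity
    · positivity
  have hη1 : η ≤ (2 * K)⁻¹ := min_le_left _ _
  have hη2 : η ≤ c0 / (4 * K * (‖y‖ + 1)) := (min_le_right _ _).trans (min_le_left _ _)
  have hη3 : η ≤ ε / (2 * (‖x1‖ + 1)) := (min_le_right _ _).trans (min_le_right _ _)
  obtain ⟨g, hg, hgn⟩ := hdc η hηpos
  have hgd : ∀ w, ‖g w - g1 w‖ ≤ η * ‖w‖ := by
    intro w
    calc ‖g w - g1 w‖ = ‖(((g : GE E) : E →L[ℝ] E) - g1) w‖ := rfl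
      _ ≤ ‖((g : GE E) : E →L[ℝ] E) - g1‖ * ‖w‖ := ContinuousLinearMap.le_opNorm _ _
      _ ≤ η * ‖w‖ := mul_le_mul_of_nonneg_right hgn.le (norm_nonneg _)
  refine ⟨g, hg, x1, hx1e, ?_, ?_⟩
  · have e1 := hgd x1
    rw [hg1x] at e1
    have e2 : η * ‖x1‖ ≤ ε / (2 * (‖x1‖ + 1)) * ‖x1‖ :=
      mul_le_mul_of_nonneg_right hη3 (norm_nonneg _)
    have e3 : ε / (2 * (‖x1‖ + 1)) * ‖x1‖ < ε := by
      rw [div_mul_eq_mul_div, div_lt_iff₀ (by positivity)]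
      nlinarith [norm_nonneg x1]
    linarith
  · intro w hw
    have hK2 := hKb w
    have hg2 := hgd w
    have e1 : ‖g1 w‖ ≤ ‖g w‖ + ‖g w - g1 w‖ := by
      have := norm_sub_le (g w) (g w - g1 w)
      rwa [sub_sub_cancel] at this
    have e2 : η * ‖w‖ ≤ (2 * K)⁻¹ * ‖w‖ := mul_le_mul_of_nonneg_right hη1 (norm_nonneg _)
    have e3 : ‖w‖ ≤ 2 * K * ‖g w‖ := by
      have e4 : ‖w‖ ≤ K * (‖g w‖ + (2 * K)⁻¹ * ‖w‖) :=
        hK2.trans (mul_le_mul_of_nonneg_left (by linarith) hKpos.le)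
      have e5 : K * (‖g w‖ + (2 * K)⁻¹ * ‖w‖) = K * ‖g w‖ + ‖w‖ / 2 := by
        field_simp
      rw [e5] at e4
      linarith
    by_cases hbig : ‖y‖ + 1 ≤ ‖g w‖
    · have e6 : ‖g w‖ - ‖y‖ ≤ ‖y - g w‖ := by
        have := norm_sub_norm_le (g w) y
        rwa [norm_sub_rev] at this
      exact (min_le_right _ _).trans (by linarith)
    · push Not at hbig
      have e6 : ‖w‖ ≤ 2 * K * (‖y‖ + 1) := e3.trans (mul_le_mul_of_nonneg_left hbig.le (by positivity))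
      have e7 : η * ‖w‖ ≤ c0 / 2 := by
        calc η * ‖w‖ ≤ c0 / (4 * K * (‖y‖ + 1)) * (2 * K * (‖y‖ + 1)) :=
              mul_le_mul hη2 e6 (norm_nonneg _) (by positivity)
          _ = c0 / 2 := by
              field_simp
              ring
      have e8 := hdist w hw
      have e9 : ‖y - g1 w‖ ≤ ‖y - g w‖ + ‖g w - g1 w‖ := by
        have := norm_add_le (y - g w) (g w - g1 w)
        rwa [sub_add_sub_cancel] at this
      exact (min_le_left _ _).trans (by linarith)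

theorem ratFam_of {G : Subgroup (GE E)} {𝒬 : Set (GE E)} {e : E →L[ℝ] E}
    (he : ∀ x, e (e x) = e x) (h0 : e ≠ 0) (h1 : e ≠ 1) (hd : DenP 𝒬)
    (ha : ∀ g ∈ 𝒬, AccP (cjG g G) e) :
    LatN.RatFam G.subtype {W | ∃ g ∈ 𝒬, W =
      (LinearMap.range (e : E →ₗ[ℝ] E)).map (((g : GE E) : E →L[ℝ] E) : E →ₗ[ℝ] E)} := by
  constructor
  · rintro W ⟨g, hg, rfl⟩ x hx y hy
    obtain ⟨x0, ⟨x0', hx0'⟩, hx0⟩ := hx
    have hex0 : e x0 = x0 := by
      have : e x0' = x0 := hx0'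
      rw [← this, he]
    have hgx0 : g x0 = x := hx0
    set y0 : E := g.symm y with hy0
    have hgy0 : g y0 = y := g.apply_symm_apply y
    have hey0 : e y0 ≠ y0 := by
      intro h
      exact hy ⟨y0, ⟨y0, h⟩, hgy0⟩
    obtain ⟨z0, hz0⟩ := ha g hg x0 y0 hex0 hey0
    refine ⟨g z0, ?_⟩
    intro ε hε
    set δ : ℝ := ε / (‖((g : GE E) : E →L[ℝ] E)‖ + 1) with hδ
    have hδpos : 0 < δ := by positivity
    obtain ⟨h, hh, h', hh', a1, a2, a3, a4, a5⟩ := hz0 δ hδpos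
    have m1 := mem_cjG.1 hh
    have m2 := mem_cjG.1 hh'
    have key : ∀ (k : GE E) (v : E), (g * k * g⁻¹ : GE E) (g v) = g (k v) := by
      intro k v
      change g (k (g.symm (g v))) = g (k v)
      rw [g.symm_apply_apply]
    have hb : ∀ v, ‖g v‖ ≤ ‖((g : GE E) : E →L[ℝ] E)‖ * ‖v‖ := fun v =>
      ContinuousLinearMap.le_opNorm ((g : GE E) : E →L[ℝ] E) v
    have hlt : ∀ v, ‖v‖ < δ → ‖g v‖ < ε := by
      intro v hv
      have e1 : ‖((g : GE E) : E →L[ℝ] E)‖ * ‖v‖ ≤ ‖((g : GE E) : E →L[ℝ] E)‖ * δ :=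
        mul_le_mul_of_nonneg_left hv.le (norm_nonneg _)
      have e2 : ‖((g : GE E) : E →L[ℝ] E)‖ * δ < ε := by
        rw [hδ, mul_div_assoc', div_lt_iff₀ (by positivity)]
        nlinarith [norm_nonneg ((g : GE E) : E →L[ℝ] E)]
      exact (hb v).trans_lt (e1.trans_lt e2)
    refine ⟨⟨g * h * g⁻¹, m1⟩, ⟨g * h' * g⁻¹, m2⟩, ?_, ?_, ?_, ?_, ?_⟩
    · change (g * h * g⁻¹ : GE E) x = x
      rw [← hgx0, key, a1]
    · change (g * h' * g⁻¹ : GE E) x = x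
      rw [← hgx0, key, a2]
    · change (g * h * g⁻¹ : GE E) y ≠ (g * h' * g⁻¹ : GE E) y
      rw [← hgy0, key, key]
      exact fun hcon => a3 (g.injective hcon)
    · change ‖(g * h * g⁻¹ : GE E) y - g z0‖ < ε
      rw [← hgy0, key, ← map_sub]
      exact hlt _ a4
    · change ‖(g * h' * g⁻¹ : GE E) y - g z0‖ < ε
      rw [← hgy0, key, ← map_sub]
      exact hlt _ a5
  · intro x y hxy
    obtain ⟨c, hc, hall⟩ := rdense he h0 h1 hd x y hxy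
    refine ⟨c, hc, ?_⟩
    intro ε hε
    obtain ⟨g, hg, x1, hx1, hn, hw⟩ := hall ε hε
    refine ⟨_, ⟨g, hg, rfl⟩, g x1, ⟨x1, ⟨x1, hx1⟩, rfl⟩, hn, ?_⟩
    rintro w ⟨w0, ⟨w1, hw1⟩, rfl⟩
    refine hw w0 ?_
    have : e w1 = w0 := hw1
    rw [← this, he]

theorem injRel_of {G : Subgroup (GE E)} {𝒬 : Set (GE E)} {e : E →L[ℝ] E}
    (he : ∀ x, e (e x) = e x) (h0 : e ≠ 0) (h1 : e ≠ 1) (hd : DenP 𝒬)
    (ha : ∀ g ∈ 𝒬, AccP (cjG g G) e) (hC : ∀ x : E, ∀ t > 0, ∃ γ ∈ G, ‖(γ : GE E) x‖ ≤ t) :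
    LatN.InjRel G.subtype := by
  refine LatN.injRel_of_ratFam (ratFam_of he h0 h1 hd ha) ?_
  intro x t ht
  obtain ⟨γ, hγ, h⟩ := hC x t ht
  exact ⟨⟨γ, hγ⟩, h⟩

end
end LatLin
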