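import Pool.Agent.Lib.MP_2392aa_gt.J.OutEx
import Pool.Agent.Lib.MP_2392aa_gt.J.RatA
import Pool.Agent.Lib.MP_2392aa_gt.J.SmallC

/-!
MP_2392aa_gt, second question, module OutAcc (about 450 lines): outer type, accumulation.

Notation: `f = mid e e'`, `V, N, V'` the ranges of `e, f, e'`, `u = uO e e'` (operators vanishing on `V`, mapping `N`
to `V` and `V'` to `V + N`; `mem_uO`, `uO_N3`). Let `n, c` be the lattice data of `lat_O h hG`,
`Λ = Submodule.span ℤ (Set.range c)`; `te X ∈ G` for `X ∈ Λ`. All `te X`, `X ∈ u`, fix the vectors of `V`, so they fix `x`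
(`e x = x`). If `e y ≠ y` then `f y ≠ 0` or `e' y ≠ 0`.

PROOFS.
* `accA` (`e' y = 0`, so `f y ≠ 0`). `a, a'` from `ex_a`, `D` from `ex_sqrt`. `Y1 := a - a'` and `Y2 := √D (a + a')` are in
  `u`, `RR O Y_i (- Y_i)` [the pairs `(a, op a') - (a', op a)` and `(√D a, op (- √D a')) - (- √D a', op (√D a))`]. Let `M`
  be from `lat_mul`. For integers `p, q`: `X := M (p Y1 + q Y2) ∈ Λ`, `X y = M (p + q √D) a y` because `a' y = a' e' y = 0`
  and `a y ∈ V`, `X (X y) = 0`; so `te X y = y + M (p + q √D) a y`. Choose `p, q` from `irr_small` with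
  `0 < |p + q √D| < ε / (M ‖a y‖ + 1)`. `z = y`, `h = te X`, `h' = 1`.
* `accB` (`e' y ≠ 0`, `f ≠ 0`). Put `y' = e' y`. `a, a'` from `ex_a'` (`a' y ≠ 0`, `a' y = a' y'`), `Y1, Y2` as before. The
  vectors `s y'`, `s` in the set of `skew_span`, span `V` over `ℝ` (`V` is the set of the `e z e' y'`, `z` an operator,
  as `y' ≠ 0`); choose finitely many `s_1, ..., s_r` such that the `s_i y'` span `V`. The `s_i` are in `u`. Let `M ≠ 0` be
  from `lat_mul` for `Y1, Y2, s_1, ..., s_r`. For `j ≥ 1` choose by `irr_small` (with `- q`) integers `p, q` with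
  `0 < |p - q √D| < 1 / j`, and such that the numbers `θ_j := p_j - q_j √D` have strictly decreasing absolute
  values. `X_j := M (p Y1 + q Y2) ∈ Λ`, `S := ∑ M m_i s_i ∈ Λ`; `te S y = y + S y'` (`S` vanishes on `V + N`, `S y' ∈ V`), and
  `P_j := te X_j (te S y) = y + X_j y + (1/2) X_j (X_j y) + S y'`. Its component in `V'` is `y'`; in `N`:
  `f P_j = f y + f (X_j y) = f y - M θ_j a' y'` (`X_j = M (p + q √D) a - M θ_j a'`), bounded and injective in `j`
  since `a' y' ≠ 0`; in `V`: `e P_j = e (y + X_j y + (1/2) X_j X_j y) + ∑ m_i (M s_i y')`: by `round_comb` (the vectors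
  `M s_i y'` span `V`) the integers `m_i` can be chosen such that `‖e P_j‖ ≤ R` with `R` independent of `j`. So `P_j` is
  bounded and injective: `acc_of_bdd`. `P_j = (te X_j * te S_j) y` with `te X_j * te S_j ∈ G`.
* `accC` (`e' y ≠ 0`, `f = 0`, `2 ≤ d := finrank (range e)`). `y' = e' y`. The operators `x` with `e x e' = x` form a space
  of dimension `d * d'`, `d' = finrank (range e') = d` (`corn_dim`); by `skew_span` it has a basis
  `s_1, ..., s_r`, `r = d² > d`, with `RR O s_i (- s_i)`, `e s_i e' = s_i`, `s_i ∈ u`. (It is enough to have `r > d`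
  linearly independent ones.) `M` from `lat_mul`. `small_comb` in the space `V` (`range e`, dimension `d`) for the
  vectors `M s_i y'`: integers `m_i`, not all zero, `S := ∑ m_i M s_i ≠ 0`, `‖S y'‖ < ε`. `RR O S (- S)`, `e S e' = S`: by
  `corn_inv` for `h.symm` (the roles of `e, e'` exchanged) there is `γ` with `γ S = e'`, so
  `S y' ≠ 0`. `te S ∈ G`, `te S y = y + S y'`. `z = y`, `h = te S`, `h' = 1`.
* `acc_O`: the three cases.
-/

open scoped ContDiff Topology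
open MulOpposite

namespace LatLin

section
variable {E : Type*} [NormedAddCommGroup E] [InnerProductSpace ℝ E] [FiniteDimensional ℝ E]
  {O : Subring (DE E)} {e e' : E →L[ℝ] E}

omit [FiniteDimensional ℝ E] in
private theorem cube3 (h : PP e e') {X : E →L[ℝ] E} (hX : X ∈ uO e e') : X ∘L X ∘L X = 0 :=
  (uO_N3 h).cube X hX X hX X hX

private theorem te_fix (h : PP e e') {X : E →L[ℝ] E} (hX : X ∈ uO e e') {x : E} (hx : e x = x) :
    te X x = x := by
  have h1 : X x = 0 := by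
    have h2 := ((mem_uO h).1 hX).1 x
    rwa [hx] at h2
  rw [te_apply (cube3 h hX), h1, map_zero, smul_zero, add_zero, add_zero]

/-- the lattice of the unipotent group -/
private theorem lat_data (h : OD O e e') {G : Subgroup (GE E)} (hG : G ∈ CCO O) :
    ∃ Λ : Submodule ℤ (E →L[ℝ] E), (∀ X ∈ Λ, te X ∈ G ∧ X ∈ uO e e') ∧
      ∀ Y ∈ uO e e', RR O Y (-Y) → ∃ M : ℕ, M ≠ 0 ∧ (M : ℝ) • Y ∈ Λ := by
  obtain ⟨n, c, -, hspan, hte, -, hmul⟩ := lat_O h hG
  refine ⟨Submodule.span ℤ (Set.range c), fun X hX => ⟨hte X hX, ?_⟩, fun Y hY hY' => ?_⟩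
  · rw [← hspan]
    exact Submodule.span_subset_span ℤ ℝ _ hX
  · obtain ⟨M, hM, h1⟩ := lat_mul h.ox hG (uO_N3 h.pp) hmul (m := 1) (fun _ => Y) (fun _ => hY)
      (fun _ => hY')
    refine ⟨M, hM, ?_⟩
    have h2 := h1 0
    rwa [← Int.cast_smul_eq_zsmul ℝ, Int.cast_natCast] at h2

omit [FiniteDimensional ℝ E] in
private theorem ca (h : PP e e') {a : E →L[ℝ] E} (ha : e * a * mid e e' = a) :
    (∀ x, e (a x) = a x) ∧ (∀ x, a (e x) = 0) ∧ ∀ x, a (e' x) = 0 := by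
  have key : ∀ x, a x = e (a (mid e e' x)) := fun x => (congrArg (fun g => g x) ha).symm
  refine ⟨fun x => ?_, fun x => ?_, fun x => ?_⟩
  · rw [key x, h.pr.idem]
  · have h1 : mid e e' (e x) = 0 := by
      rw [mid_apply, h.pr.idem, h.o', sub_zero, sub_self]
    rw [key, h1, map_zero, map_zero]
  · have h1 : mid e e' (e' x) = 0 := by
      rw [mid_apply, h.pr'.idem, h.o, sub_zero, sub_self]
    rw [key, h1, map_zero, map_zero]

omit [FiniteDimensional ℝ E] in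
private theorem ca' (h : PP e e') {a' : E →L[ℝ] E} (ha' : mid e e' * a' * e' = a') :
    (∀ x, e (a' x) = 0) ∧ (∀ x, e' (a' x) = 0) ∧ (∀ x, a' (e x) = 0) ∧
      ∀ x, a' (e' x) = a' x := by
  have key : ∀ x, a' x = mid e e' (a' (e' x)) := fun x => (congrArg (fun g => g x) ha').symm
  refine ⟨fun x => ?_, fun x => ?_, fun x => ?_, fun x => ?_⟩
  · rw [key x, mid_apply, map_sub, map_sub, h.pr.idem, h.o, sub_zero, sub_self]
  · rw [key x, mid_apply, map_sub, map_sub, h.pr'.idem, h.o', sub_zero, sub_self]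
  · rw [key, h.o', map_zero, map_zero]
  · rw [key (e' x), h.pr'.idem, ← key]

private theorem comb_mem (h : PP e e') {a a' : E →L[ℝ] E} (ha : e * a * mid e e' = a)
    (ha' : mid e e' * a' * e' = a') (α β : ℝ) : α • a - β • a' ∈ uO e e' := by
  obtain ⟨h1, h2, h3⟩ := ca h ha
  obtain ⟨k1, k2, k3, k4⟩ := ca' h ha'
  rw [mem_uO h]
  refine ⟨fun x => ?_, fun x => ?_, fun x => ?_⟩
  · simp only [sub_apply, smul_apply, h2, k3, smul_zero, sub_zero]
  · have h4 : e' (a x) = 0 := by rw [← h1 x, h.o']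
    simp only [sub_apply, smul_apply, map_sub, map_smul, h4, k2, smul_zero, sub_zero]
  · have h4 : a' (x - e x - e' x) = 0 := by
      rw [map_sub, map_sub, k3, k4, sub_zero, sub_self]
    simp only [sub_apply, smul_apply, h4, smul_zero, sub_zero, map_smul, h1]

private theorem lat_comb (h : OD O e e') {Λ : Submodule ℤ (E →L[ℝ] E)}
    (hΛ : ∀ Y ∈ uO e e', RR O Y (-Y) → ∃ M : ℕ, M ≠ 0 ∧ (M : ℝ) • Y ∈ Λ)
    {a a' : E →L[ℝ] E} (hr : RR O a a') (ha : e * a * mid e e' = a)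
    (ha' : mid e e' * a' * e' = a') :
    ∃ D : ℕ, ¬ IsSquare D ∧ ∃ M : ℕ, M ≠ 0 ∧ ∀ p q : ℤ,
      ((M : ℝ) * (p + q * Real.sqrt D)) • a - ((M : ℝ) * (p - q * Real.sqrt D)) • a' ∈ Λ := by
  obtain ⟨D, hD, hs⟩ := ex_sqrt h.ox
  have r1 : RR O (a - a') (-(a - a')) := by
    rw [neg_sub]
    exact rr_sub hr (rr_swap h.ox hr)
  have r2 : RR O (Real.sqrt D • a + Real.sqrt D • a')
      (-(Real.sqrt D • a + Real.sqrt D • a')) := by
    have h1 := hs a a' hr
    have h2 := rr_sub h1 (rr_swap h.ox h1)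
    rw [sub_neg_eq_add] at h2
    have e1 : -(Real.sqrt D • a + Real.sqrt D • a') =
        -(Real.sqrt D • a') - Real.sqrt D • a := by abel
    rw [e1]
    exact h2
  have m1 : a - a' ∈ uO e e' := by
    have h1 := comb_mem h.pp ha ha' 1 1
    rwa [one_smul, one_smul] at h1
  have m2 : Real.sqrt D • a + Real.sqrt D • a' ∈ uO e e' := by
    have h1 := comb_mem h.pp ha ha' (Real.sqrt D) (-Real.sqrt D)
    rwa [neg_smul, sub_neg_eq_add] at h1
  obtain ⟨M1, hM1, l1⟩ := hΛ _ m1 r1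
  obtain ⟨M2, hM2, l2⟩ := hΛ _ m2 r2
  refine ⟨D, hD, M1 * M2, mul_ne_zero hM1 hM2, fun p q => ?_⟩
  have h3 := Λ.add_mem (Λ.smul_mem ((M2 : ℤ) * p) l1) (Λ.smul_mem ((M1 : ℤ) * q) l2)
  rw [← Int.cast_smul_eq_zsmul ℝ, ← Int.cast_smul_eq_zsmul ℝ] at h3
  have e2 : (((M1 * M2 : ℕ) : ℝ) * (p + q * Real.sqrt D)) • a -
      (((M1 * M2 : ℕ) : ℝ) * (p - q * Real.sqrt D)) • a' =
      (((M2 : ℤ) * p : ℤ) : ℝ) • (M1 : ℝ) • (a - a') +
      (((M1 : ℤ) * q : ℤ) : ℝ) • (M2 : ℝ) • (Real.sqrt D • a + Real.sqrt D • a') := by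
    push_cast
    module
  rw [e2]
  exact h3

omit [FiniteDimensional ℝ E] in
/-- the corner of operators from `V'` to `V` -/
private theorem ccor (h : PP e e') {s : E →L[ℝ] E} (hs : e * s * e' = s) :
    (∀ x, e (s x) = s x) ∧ (∀ x, s (e x) = 0) ∧ (∀ x, s (e' x) = s x) ∧ s ∈ uO e e' := by
  have key : ∀ x, s x = e (s (e' x)) := fun x => (congrArg (fun g => g x) hs).symm
  have h1 : ∀ x, e (s x) = s x := fun x => by rw [key x, h.pr.idem]
  have h2 : ∀ x, s (e x) = 0 := fun x => by rw [key, h.o', map_zero, map_zero]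
  have h3 : ∀ x, s (e' x) = s x := fun x => by rw [key (e' x), h.pr'.idem, ← key]
  refine ⟨h1, h2, h3, ?_⟩
  rw [mem_uO h]
  exact ⟨h2, fun x => by rw [← h1, h.o'], fun x => h1 _⟩

/-- finitely many rational skew elements spanning the corner -/
private theorem skew_fin (h : OD O e e') : ∃ (r : ℕ) (s : Fin r → (E →L[ℝ] E)),
    (∀ i, RR O (s i) (-(s i)) ∧ e * s i * e' = s i) ∧ LinearIndependent ℝ s ∧
    (∀ x : E →L[ℝ] E, e * x * e' = x → x ∈ Submodule.span ℝ (Set.range s)) := by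
  obtain ⟨f, hf, hf', hf''⟩ := Submodule.exists_fun_fin_finrank_span_eq ℝ
    {s : E →L[ℝ] E | RR O s (-s) ∧ e * s * e' = s}
  refine ⟨_, f, hf, hf'', fun x hx => ?_⟩
  rw [hf']
  exact skew_span h hx

private theorem corner_val (h : PP e e') {y : E} (hy : e' y ≠ 0) {v : E} (hv : e v = v) :
    ∃ x : E →L[ℝ] E, e * x * e' = x ∧ x y = v := by
  have hn : (inner ℝ (e' y) (e' y) : ℝ) ≠ 0 := fun h0 => hy (inner_self_eq_zero.1 h0)
  refine ⟨ro ((inner ℝ (e' y) (e' y) : ℝ)⁻¹ • e' y) v, ?_, ?_⟩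
  · ext w
    show e (ro ((inner ℝ (e' y) (e' y) : ℝ)⁻¹ • e' y) v (e' w)) =
      ro ((inner ℝ (e' y) (e' y) : ℝ)⁻¹ • e' y) v w
    have h2 : (inner ℝ (e' y) (e' w) : ℝ) = inner ℝ (e' y) w := by
      rw [← h.pr'.sym (e' y) w, h.pr'.idem]
    rw [ro_apply, ro_apply, map_smul, hv, real_inner_smul_left, real_inner_smul_left, h2]
  · have h1 : (inner ℝ (e' y) y : ℝ) = inner ℝ (e' y) (e' y) := by
      rw [← h.pr'.sym, h.pr'.idem]
    rw [ro_apply, real_inner_smul_left, h1, inv_mul_cancel₀ hn, one_smul]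

private theorem te_mul_cor (h : PP e e') {X S : E →L[ℝ] E} (hX : X ∈ uO e e')
    (hS : e * S * e' = S) (y : E) : te S y = y + S y ∧
    (te X * te S) y = te X y + S y := by
  obtain ⟨h1, h2, h3, h4⟩ := ccor h hS
  have e1 : te S y = y + S y := by
    have h5 : S (S y) = 0 := by rw [← h1 y, h2]
    rw [te_apply (cube3 h h4), h5, smul_zero, add_zero]
  refine ⟨e1, ?_⟩
  show te X (te S y) = _
  rw [e1, map_add, te_fix h hX (h1 y)]

theorem accA (h : OD O e e') {G : Subgroup (GE E)} (hG : G ∈ CCO O) (x y : E) (hx : e x = x)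
    (hy : mid e e' y ≠ 0) (hy' : e' y = 0) : ∃ z : E, ∀ ε > (0 : ℝ), ∃ h ∈ G, ∃ h' ∈ G,
    h x = x ∧ h' x = x ∧ h y ≠ h' y ∧ ‖h y - z‖ < ε ∧ ‖h' y - z‖ < ε := by
  obtain ⟨a, a', hr, ha, ha', hay⟩ := ex_a h hy
  obtain ⟨Λ, hΛ, hΛ'⟩ := lat_data h hG
  obtain ⟨D, hD, M, hM, hm⟩ := lat_comb h hΛ' hr ha ha'
  obtain ⟨a1, a2, a3⟩ := ca h.pp ha
  obtain ⟨b1, b2, b3, b4⟩ := ca' h.pp ha'
  have hM0 : (0 : ℝ) < M := by
    have h1 : 0 < M := Nat.pos_of_ne_zero hM
    exact_mod_cast h1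
  refine ⟨y, fun ε hε => ?_⟩
  have hq : (0 : ℝ) < M * ‖a y‖ + 1 := by positivity
  obtain ⟨p, q, hpq, hpq'⟩ := irr_small D hD (div_pos hε hq)
  have hX := hm p q
  obtain ⟨hX1, hX2⟩ := hΛ _ hX
  set X := ((M : ℝ) * (p + q * Real.sqrt D)) • a - ((M : ℝ) * (p - q * Real.sqrt D)) • a' with hXd
  have e0 : a' y = 0 := by rw [← b4, hy', map_zero]
  have e1 : X y = ((M : ℝ) * (p + q * Real.sqrt D)) • a y := by
    rw [hXd, sub_apply, smul_apply, smul_apply, e0, smul_zero, sub_zero]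
  have e2 : X (X y) = 0 := by
    rw [e1, map_smul, ← a1 y, ((mem_uO h.pp).1 hX2).1, smul_zero]
  have e3 : te X y = y + ((M : ℝ) * (p + q * Real.sqrt D)) • a y := by
    rw [te_apply (cube3 h.pp hX2), e2, smul_zero, add_zero, e1]
  have hθ : (p : ℝ) + q * Real.sqrt D ≠ 0 := abs_pos.1 hpq
  refine ⟨te X, hX1, 1, G.one_mem, te_fix h.pp hX2 hx, rfl, ?_, ?_, ?_⟩
  · rw [e3]
    intro h0
    have h1 : ((M : ℝ) * (p + q * Real.sqrt D)) • a y = 0 := by
      have h2 : y + ((M : ℝ) * (p + q * Real.sqrt D)) • a y = y + 0 := by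
        rw [add_zero]
        exact h0
      exact add_left_cancel h2
    rcases smul_eq_zero.1 h1 with h3 | h3
    · exact mul_ne_zero hM0.ne' hθ h3
    · exact hay h3
  · rw [e3, add_sub_cancel_left, norm_smul, Real.norm_eq_abs, abs_mul, abs_of_pos hM0]
    rw [lt_div_iff₀ hq] at hpq'
    have h4 : (M : ℝ) * |(p : ℝ) + q * Real.sqrt D| * ‖a y‖ ≤
        |(p : ℝ) + q * Real.sqrt D| * (M * ‖a y‖ + 1) := by
      have h5 := abs_nonneg ((p : ℝ) + q * Real.sqrt D)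
      nlinarith
    exact h4.trans_lt hpq'
  · have h5 : ((1 : GE E) y) - y = 0 := sub_self y
    rw [h5, norm_zero]
    exact hε

theorem accB (h : OD O e e') {G : Subgroup (GE E)} (hG : G ∈ CCO O) (hN : mid e e' ≠ 0)
    (x y : E) (hx : e x = x) (hy' : e' y ≠ 0) : ∃ z : E, ∀ ε > (0 : ℝ), ∃ h ∈ G, ∃ h' ∈ G,
    h x = x ∧ h' x = x ∧ h y ≠ h' y ∧ ‖h y - z‖ < ε ∧ ‖h' y - z‖ < ε := by
  obtain ⟨a, a', hr, ha, ha', hay⟩ := ex_a' h hN hy'
  obtain ⟨Λ, hΛ, hΛ'⟩ := lat_data h hG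
  obtain ⟨D, hD, M, hM, hm⟩ := lat_comb h hΛ' hr ha ha'
  obtain ⟨a1, a2, a3⟩ := ca h.pp ha
  obtain ⟨b1, b2, b3, b4⟩ := ca' h.pp ha'
  obtain ⟨r, s, hs, -, hs'⟩ := skew_fin h
  have hM0 : (0 : ℝ) < M := by
    have h1 : 0 < M := Nat.pos_of_ne_zero hM
    exact_mod_cast h1
  have hN' : ∀ i, ∃ N : ℕ, N ≠ 0 ∧ (N : ℝ) • s i ∈ Λ := fun i =>
    hΛ' (s i) (ccor h.pp (hs i).2).2.2.2 (hs i).1
  choose N hN0 hN1 using hN'
  -- the vectors spanning the range of `e`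
  have hV : ∀ v : E, e v = v → v ∈ Submodule.span ℝ (Set.range fun i => ((N i : ℝ) • s i) y) := by
    intro v hv
    obtain ⟨x0, hx0, hx1⟩ := corner_val h.pp hy' hv
    obtain ⟨t, ht⟩ := (Submodule.mem_span_range_iff_exists_fun ℝ).1 (hs' x0 hx0)
    rw [Submodule.mem_span_range_iff_exists_fun]
    refine ⟨fun i => t i / N i, ?_⟩
    rw [← hx1, ← ht, sum_apply]
    refine Finset.sum_congr rfl fun i _ => ?_
    have h1 : (N i : ℝ) ≠ 0 := Nat.cast_ne_zero.2 (hN0 i)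
    rw [smul_apply, smul_apply, smul_smul, div_mul_cancel₀ _ h1]
  obtain ⟨R, hR⟩ := round_comb (fun i => ((N i : ℝ) • s i) y)
  -- infinitely many small numbers
  have hinf : {θ : ℝ | ∃ p q : ℤ, θ = p - q * Real.sqrt D ∧ 0 < |θ| ∧ |θ| < 1}.Infinite := by
    intro hfin
    have hex : ∀ ε > (0 : ℝ), ∃ θ : ℝ, (∃ p q : ℤ, θ = p - q * Real.sqrt D) ∧ 0 < |θ| ∧
        |θ| < ε := by
      intro ε hε
      obtain ⟨p, q, h1, h2⟩ := irr_small D hD hε
      refine ⟨p + q * Real.sqrt D, ⟨p, -q, ?_⟩, h1, h2⟩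
      push_cast
      ring
    obtain ⟨θ1, ⟨p1, q1, h11⟩, h12, h13⟩ := hex 1 one_pos
    obtain ⟨θ0, ⟨p0, q0, h01, h02, h03⟩, hmin⟩ := Set.exists_min_image _ (fun θ : ℝ => |θ|) hfin
      ⟨θ1, p1, q1, h11, h12, h13⟩
    obtain ⟨θ2, ⟨p2, q2, h21⟩, h22, h23⟩ := hex |θ0| h02
    have h3 := hmin θ2 ⟨p2, q2, h21, h22, h23.trans h03⟩
    exact absurd h23 (not_lt.2 h3)
  let θ : ℕ → ℝ := fun j => (Set.Infinite.natEmbedding _ hinf j : ℝ)
  have hθinj : Function.Injective θ := fun i j hij =>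
    (Set.Infinite.natEmbedding _ hinf).injective (Subtype.ext hij)
  have hθ : ∀ j, ∃ p q : ℤ, θ j = p - q * Real.sqrt D ∧ 0 < |θ j| ∧ |θ j| < 1 := fun j =>
    (Set.Infinite.natEmbedding _ hinf j).2
  choose p q hpq1 hpq2 hpq3 using hθ
  let X : ℕ → (E →L[ℝ] E) := fun j =>
    ((M : ℝ) * (p j + q j * Real.sqrt D)) • a - ((M : ℝ) * (p j - q j * Real.sqrt D)) • a'
  have hXG : ∀ j, te (X j) ∈ G ∧ X j ∈ uO e e' := fun j => hΛ _ (hm (p j) (q j))
  have hXy : ∀ j, ∃ v : E, e v = v ∧ te (X j) y = y + v - ((M : ℝ) * θ j) • a' y := by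
    intro j
    refine ⟨((M : ℝ) * (p j + q j * Real.sqrt D)) • a y + (1 / 2 : ℝ) • X j (X j y), ?_, ?_⟩
    · have h1 : e (X j (X j y)) = X j (X j y) := by
        have h2 := ((mem_uO h.pp).1 (hXG j).2)
        have h3 : X j (X j y) = X j (X j y - e (X j y) - e' (X j y)) := by
          rw [map_sub, map_sub, h2.1, h2.2.1, map_zero, sub_zero, sub_zero]
        rw [h3]
        exact h2.2.2 _
      rw [map_add, map_smul, map_smul, a1, h1]
    · rw [te_apply (cube3 h.pp (hXG j).2)]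
      have h2 : X j y = ((M : ℝ) * (p j + q j * Real.sqrt D)) • a y - ((M : ℝ) * θ j) • a' y := by
        rw [hpq1 j]
        rfl
      generalize X j (X j y) = w
      rw [h2]
      abel
  choose v hv1 hv2 using hXy
  have hrd : ∀ j, ∃ m : Fin r → ℤ, ‖(e y + v j) - ∑ i, (m i : ℝ) • ((N i : ℝ) • s i) y‖ ≤ R :=
    fun j => hR _ (hV _ (by rw [map_add, h.pp.pr.idem, hv1]))
  choose m hm' using hrd
  let S : ℕ → (E →L[ℝ] E) := fun j => ∑ i, (-(m j i : ℝ)) • ((N i : ℝ) • s i)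
  have hSΛ : ∀ j, S j ∈ Λ := by
    intro j
    refine Λ.sum_mem fun i _ => ?_
    have h1 := Λ.smul_mem (-(m j i)) (hN1 i)
    rw [← Int.cast_smul_eq_zsmul ℝ, Int.cast_neg] at h1
    exact h1
  have hSc : ∀ j, e * S j * e' = S j := by
    intro j
    show e * (∑ i, (-(m j i : ℝ)) • ((N i : ℝ) • s i)) * e' = _
    rw [Finset.mul_sum, Finset.sum_mul]
    refine Finset.sum_congr rfl fun i _ => ?_
    rw [mul_smul_comm, mul_smul_comm, smul_mul_assoc, smul_mul_assoc, (hs i).2]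
  have hSy : ∀ j, S j y = -∑ i, (m j i : ℝ) • ((N i : ℝ) • s i) y := by
    intro j
    show (∑ i, (-(m j i : ℝ)) • ((N i : ℝ) • s i)) y = _
    rw [sum_apply, ← Finset.sum_neg_distrib]
    refine Finset.sum_congr rfl fun i _ => ?_
    rw [smul_apply, neg_smul]
  let P : ℕ → E := fun j => (te (X j) * te (S j)) y
  have hP : ∀ j, P j = y + v j - ((M : ℝ) * θ j) • a' y + S j y := by
    intro j
    show (te (X j) * te (S j)) y = _
    rw [(te_mul_cor h.pp (hXG j).2 (hSc j) y).2, hv2]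
  have hfv : ∀ j, mid e e' (v j) = 0 := by
    intro j
    rw [mid_apply, hv1, ← hv1, h.pp.o', sub_zero, hv1, sub_self]
  have hfS : ∀ j, mid e e' (S j y) = 0 := by
    intro j
    have h1 := (ccor h.pp (hSc j)).1 y
    rw [mid_apply, h1, ← h1, h.pp.o', sub_zero, h1, sub_self]
  have hfP : ∀ j, mid e e' (P j) = mid e e' y - ((M : ℝ) * θ j) • a' y := by
    intro j
    have h1 : mid e e' (a' y) = a' y := by
      rw [mid_apply, b1, b2, sub_zero, sub_zero]
    rw [hP, map_add, map_sub, map_add, map_smul, hfv, hfS, h1, add_zero, add_zero]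
  have hinj : Function.Injective P := by
    intro i j hij
    have h1 := hfP i
    rw [hij, hfP j] at h1
    have h2 : ((M : ℝ) * θ j) • a' y = ((M : ℝ) * θ i) • a' y := sub_right_injective h1
    have h3 : (M : ℝ) * θ j = M * θ i := smul_left_injective ℝ hay h2
    exact hθinj (mul_left_cancel₀ hM0.ne' h3).symm
  have hbd : ∀ j, ‖P j‖ ≤ R + M * ‖a' y‖ + ‖y - e y‖ := by
    intro j
    have h1 : P j = ((e y + v j) - ∑ i, (m j i : ℝ) • ((N i : ℝ) • s i) y) -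
        ((M : ℝ) * θ j) • a' y + (y - e y) := by
      rw [hP, hSy]
      abel
    have h2 : ‖((M : ℝ) * θ j) • a' y‖ ≤ M * ‖a' y‖ := by
      rw [norm_smul, Real.norm_eq_abs, abs_mul, abs_of_pos hM0]
      have h3 : (M : ℝ) * |θ j| ≤ M * 1 := mul_le_mul_of_nonneg_left (hpq3 j).le hM0.le
      rw [mul_one] at h3
      exact mul_le_mul_of_nonneg_right h3 (norm_nonneg _)
    rw [h1]
    refine (norm_add_le _ _).trans ?_
    refine add_le_add_left ((norm_sub_le _ _).trans ?_) _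
    exact add_le_add (hm' j) h2
  obtain ⟨z, hz⟩ := acc_of_bdd P hinj _ hbd
  refine ⟨z, fun ε hε => ?_⟩
  obtain ⟨i, j, h1, h2, h3⟩ := hz ε hε
  have hmem : ∀ j, te (X j) * te (S j) ∈ G := fun j => G.mul_mem (hXG j).1 (hΛ _ (hSΛ j)).1
  have hfix : ∀ j, (te (X j) * te (S j)) x = x := by
    intro j
    show te (X j) (te (S j) x) = x
    rw [te_fix h.pp (hΛ _ (hSΛ j)).2 hx, te_fix h.pp (hXG j).2 hx]
  exact ⟨_, hmem i, _, hmem j, hfix i, hfix j, h1, h2, h3⟩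

theorem accC (h : OD O e e') {G : Subgroup (GE E)} (hG : G ∈ CCO O)
    (hd : 2 ≤ Module.finrank ℝ (LinearMap.range (e : E →ₗ[ℝ] E)))
    (x y : E) (hx : e x = x) (hy' : e' y ≠ 0) : ∃ z : E, ∀ ε > (0 : ℝ), ∃ h ∈ G, ∃ h' ∈ G,
    h x = x ∧ h' x = x ∧ h y ≠ h' y ∧ ‖h y - z‖ < ε ∧ ‖h' y - z‖ < ε := by
  obtain ⟨Λ, hΛ, hΛ'⟩ := lat_data h hG
  obtain ⟨r, s, hs, hli, hs'⟩ := skew_fin h
  have hN' : ∀ i, ∃ N : ℕ, N ≠ 0 ∧ (N : ℝ) • s i ∈ Λ := fun i =>
    hΛ' (s i) (ccor h.pp (hs i).2).2.2.2 (hs i).1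
  choose N hN0 hN1 using hN'
  -- the dimension of the corner
  have hr : Module.finrank ℝ (LinearMap.range (e : E →ₗ[ℝ] E)) < r := by
    have h1 : Module.finrank ℝ (Submodule.span ℝ (Set.range s)) = r := by
      rw [finrank_span_eq_card hli, Fintype.card_fin]
    let Φ : (LinearMap.range (e' : E →ₗ[ℝ] E) →ₗ[ℝ] LinearMap.range (e : E →ₗ[ℝ] E)) →ₗ[ℝ]
        (E →L[ℝ] E) :=
      { toFun := fun φ => LinearMap.toContinuousLinearMap
          ((LinearMap.range (e : E →ₗ[ℝ] E)).subtype ∘ₗ φ ∘ₗ (e' : E →ₗ[ℝ] E).rangeRestrict)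
        map_add' := fun φ ψ => by
          ext x
          rfl
        map_smul' := fun c φ => by
          ext x
          rfl }
    have hΦ : ∀ φ x, Φ φ x = (φ ⟨e' x, ⟨x, rfl⟩⟩ : E) := fun φ x => rfl
    have hinj : Function.Injective Φ := by
      intro φ ψ hφ
      apply LinearMap.ext
      rintro ⟨_, ⟨x, rfl⟩⟩
      apply Subtype.ext
      have h2 : Φ φ x = Φ ψ x := by rw [hφ]
      exact h2
    have hran : ∀ φ, Φ φ ∈ Submodule.span ℝ (Set.range s) := by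
      intro φ
      apply hs'
      ext x
      show e (Φ φ (e' x)) = Φ φ x
      rw [hΦ, hΦ]
      have h2 : ∀ w : LinearMap.range (e : E →ₗ[ℝ] E), e (w : E) = w := by
        rintro ⟨_, ⟨w, rfl⟩⟩
        exact h.pp.pr.idem w
      rw [h2]
      have h3 : (⟨e' (e' x), ⟨e' x, rfl⟩⟩ : LinearMap.range (e' : E →ₗ[ℝ] E)) =
          ⟨e' x, ⟨x, rfl⟩⟩ := Subtype.ext (h.pp.pr'.idem x)
      rw [h3]
    have h4 : Module.finrank ℝ (LinearMap.range (e' : E →ₗ[ℝ] E) →ₗ[ℝ]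
        LinearMap.range (e : E →ₗ[ℝ] E)) ≤ Module.finrank ℝ (Submodule.span ℝ (Set.range s)) :=
      LinearMap.finrank_le_finrank_of_injective
        (f := Φ.codRestrict (Submodule.span ℝ (Set.range s)) hran)
        (fun φ ψ hφ => hinj (congrArg Subtype.val hφ))
    rw [Module.finrank_linearMap, ← corn_dim h, h1] at h4
    have h5 : Module.finrank ℝ (LinearMap.range (e : E →ₗ[ℝ] E)) * 2 ≤
        Module.finrank ℝ (LinearMap.range (e : E →ₗ[ℝ] E)) *
        Module.finrank ℝ (LinearMap.range (e : E →ₗ[ℝ] E)) := Nat.mul_le_mul_left _ hd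
    omega
  refine ⟨y, fun ε hε => ?_⟩
  have hsV : ∀ i, ((N i : ℝ) • s i) y ∈ LinearMap.range (e : E →ₗ[ℝ] E) := fun i =>
    ⟨((N i : ℝ) • s i) y, by
      show e (((N i : ℝ) • s i) y) = _
      rw [smul_apply, map_smul, (ccor h.pp (hs i).2).1]⟩
  obtain ⟨m, hm0, hm⟩ := small_comb hr
    (fun i => (⟨((N i : ℝ) • s i) y, hsV i⟩ : LinearMap.range (e : E →ₗ[ℝ] E))) hε
  set S : E →L[ℝ] E := ∑ i, (m i : ℝ) • ((N i : ℝ) • s i) with hSd
  have hSΛ : S ∈ Λ := by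
    refine Λ.sum_mem fun i _ => ?_
    have h1 := Λ.smul_mem (m i) (hN1 i)
    rw [← Int.cast_smul_eq_zsmul ℝ] at h1
    exact h1
  have hSc : e * S * e' = S := by
    rw [hSd, Finset.mul_sum, Finset.sum_mul]
    refine Finset.sum_congr rfl fun i _ => ?_
    rw [mul_smul_comm, mul_smul_comm, smul_mul_assoc, smul_mul_assoc, (hs i).2]
  have hS0 : S ≠ 0 := by
    intro h0
    apply hm0
    have h1 : ∑ i, ((m i : ℝ) * (N i : ℝ)) • s i = 0 := by
      rw [← h0, hSd]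
      exact Finset.sum_congr rfl fun i _ => by rw [smul_smul]
    have h2 := Fintype.linearIndependent_iff.1 hli _ h1
    funext i
    have h3 : (N i : ℝ) ≠ 0 := Nat.cast_ne_zero.2 (hN0 i)
    have h4 : (m i : ℝ) = 0 := by
      rcases mul_eq_zero.1 (h2 i) with h5 | h5
      · exact h5
      · exact absurd h5 h3
    exact_mod_cast h4
  obtain ⟨hG1, hu⟩ := hΛ S hSΛ
  have hSr : RR O S (-S) := (gqo_te h.ox (cube3 h.pp hu)).1 (hG.1 _ hG1)
  obtain ⟨γ, γ2, -, -, -, hγ, -, -, -⟩ := corn_inv h.symm hSr hSc hS0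
  have hSy : S y ≠ 0 := by
    intro h0
    apply hy'
    have h1 : γ (S y) = e' y := congrArg (fun g => g y) hγ
    rw [← h1, h0, map_zero]
  have hte := (te_mul_cor h.pp hu hSc y).1
  have hnorm : ‖S y‖ < ε := by
    have h1 : S y = ((∑ i, (m i : ℝ) •
        (⟨((N i : ℝ) • s i) y, hsV i⟩ : LinearMap.range (e : E →ₗ[ℝ] E)) :
        LinearMap.range (e : E →ₗ[ℝ] E)) : E) := by
      rw [hSd, sum_apply, Submodule.coe_sum]
      rfl
    rw [h1]
    exact hm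
  refine ⟨te S, hG1, 1, G.one_mem, te_fix h.pp hu hx, rfl, ?_, ?_, ?_⟩
  · rw [hte]
    intro h0
    apply hSy
    have h2 : y + S y = y + 0 := by
      rw [add_zero]
      exact h0
    exact add_left_cancel h2
  · rw [hte, add_sub_cancel_left]
    exact hnorm
  · have h5 : ((1 : GE E) y) - y = 0 := sub_self y
    rw [h5, norm_zero]
    exact hε

theorem acc_O (h : OD O e e')
    (hd : mid e e' ≠ 0 ∨ 2 ≤ Module.finrank ℝ (LinearMap.range (e : E →ₗ[ℝ] E)))
    {G : Subgroup (GE E)} (hG : G ∈ CCO O) : AccP G e := by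
  intro x y hx hy
  by_cases h1 : e' y = 0
  · refine accA h hG x y hx ?_ h1
    rw [mid_apply, h1, sub_zero]
    intro h2
    exact hy (sub_eq_zero.1 h2).symm
  · by_cases h2 : mid e e' = 0
    · rcases hd with h3 | h3
      · exact absurd h2 h3
      · exact accC h hG h3 x y hx h1
    · exact accB h hG h2 x y hx h1

end
end LatLin
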