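import Pool.Agent.Lib.MP_2392aa_gt.J.OutEx
import Pool.Agent.Lib.MP_2392aa_gt.J.Defs

/-!
MP_2392aa_gt, second question, module OutDen (about 350 lines): outer type, the rational unitary elements
are dense up to scalars (Cayley transform).

PROOFS.
* `rr_inv`: let `RR O a a'` with `a c = c a = 1`, `a' c' = c' a' = 1`. Let `K ≠ 0` be an integer with
  `x := K (a, op a') ∈ O`. The map `y ↦ x y` of `O` into itself is injective and real linear on `DE E` with inverse
  the multiplication with `K⁻¹ (c, op c')`; in the basis `b` of `h.ord` it has an integer matrix with determinant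
  `Δ ≠ 0`; applying the adjugate matrix to the coordinates of `1 ∈ O` gives `y ∈ O` with `x y = Δ • 1`, so
  `y = Δ K⁻¹ (c, op c')`, and `RR O c c'` (`K y = Δ (c, op c')`, `Δ` is an integer).
* `skew_dense`: the set `𝒮` of the `X` with `RR O X (- X)` is dense in `E →L E`: it is closed under rational linear
  combinations (`rr_add`, `rr_rat`) and spans `E →L E` over `ℝ`: for a rational pair `(x, x')` both `x - x'` and
  `r x + r x'` (`rr_sqrt`) are in `𝒮`, so `x` is in the span, and the first components of the rational pairs span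
  (`rr_corner1` with `p = q = 1`). Write an operator as a real combination of finitely many elements of `𝒮` and
  approximate the coefficients by rational numbers.
* `den_O`: let `g0` be invertible. `t ↦ det (1 + t g0)` is a polynomial, equal to `1` at `t = 0`, so there is `c ≠ 0` with
  `1 + c g0` invertible. Put `X0 := (c g0 - 1) (c g0 + 1)⁻¹`. Then `1 - X0 = 2 (c g0 + 1)⁻¹` and
  `1 + X0 = 2 c g0 (c g0 + 1)⁻¹` are invertible and `(1 + X0) (1 - X0)⁻¹ = c g0`. For `X` close to `X0` the operators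
  `1 + X`, `1 - X` are invertible and `g_X := (1 + X) (1 - X)⁻¹` is close to `c g0` (continuity of the inverse). For
  `X ∈ 𝒮` close to `X0` (`skew_dense`): `g_X⁻¹ = (1 - X) (1 + X)⁻¹ = (1 + X)⁻¹ (1 - X)`; the pair
  `(1 + X, op (1 - X))` is rational (`rr_add`, `rr_one`), and so is `((1 - X)⁻¹, op (1 + X)⁻¹)` by `rr_inv` applied to
  `(1 - X, op (1 + X))`; the product is `(g_X, op ((1 + X)⁻¹ (1 - X))) = (g_X, op g_X⁻¹)`. By `gqo_of` `g_X ∈ GQO O`.
-/

open scoped ContDiff Topology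
open MulOpposite

namespace LatLin

section
variable {E : Type*} [NormedAddCommGroup E] [InnerProductSpace ℝ E] [FiniteDimensional ℝ E]
  {O : Subring (DE E)}

theorem rr_inv (h : OX O) {a a' c c' : E →L[ℝ] E} (hr : RR O a a') (h1 : a * c = 1)
    (h2 : c * a = 1) (h3 : a' * c' = 1) (h4 : c' * a' = 1) : RR O c c' := by
  obtain ⟨K, hK, hx⟩ := hr
  obtain ⟨n, b, hb⟩ := h.ord
  have hK' : (K : ℝ) ≠ 0 := Int.cast_ne_zero.2 hK
  set z : DE E := (c, op c') with hz
  set w : DE E := (a, op a') with hw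
  have hzw : z * w = 1 := by
    rw [hz, hw, Prod.mk_mul_mk, ← op_mul, h2, h3]
    rfl
  have hwz : w * z = 1 := by
    rw [hz, hw, Prod.mk_mul_mk, ← op_mul, h1, h4]
    rfl
  have hzx : z * (K • w) = K • (1 : DE E) := by rw [mul_smul_comm, hzw]
  have hker : LinearMap.ker (LinearMap.mulLeft ℝ (K • w)) = ⊥ := by
    rw [LinearMap.ker_eq_bot']
    intro y hy
    rw [LinearMap.mulLeft_apply] at hy
    have h5 : K • y = 0 := by
      have h6 : z * ((K • w) * y) = K • y := by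
        rw [← mul_assoc, hzx, smul_mul_assoc, one_mul]
      rw [← h6, hy, mul_zero]
    rw [← Int.cast_smul_eq_zsmul ℝ] at h5
    exact (smul_eq_zero.1 h5).resolve_left hK'
  have hli : LinearIndependent ℝ (LinearMap.mulLeft ℝ (K • w) ∘ b) :=
    b.linearIndependent.map' _ hker
  have hone : (1 : DE E) ∈ Submodule.span ℝ (Set.range (LinearMap.mulLeft ℝ (K • w) ∘ b)) := by
    rw [Set.range_comp, ← Submodule.map_span, b.span_eq]
    refine ⟨(K : ℝ)⁻¹ • z, Submodule.mem_top, ?_⟩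
    rw [LinearMap.mulLeft_apply, mul_smul_comm, smul_mul_assoc, hwz,
      ← Int.cast_smul_eq_zsmul ℝ, smul_smul, inv_mul_cancel₀ hK', one_smul]
  obtain ⟨M, hM, hM1⟩ := rr_int_span b (LinearMap.mulLeft ℝ (K • w) ∘ b) hli
    (fun i => (hb _).1 (O.mul_mem hx ((hb _).2 (Submodule.subset_span ⟨i, rfl⟩))))
    ((hb _).1 O.one_mem) hone
  obtain ⟨t, ht⟩ := (Submodule.mem_span_range_iff_exists_fun ℤ).1 hM1
  have hy : (∑ i, t i • b i) ∈ O :=
    O.sum_mem fun i _ => O.zsmul_mem ((hb _).2 (Submodule.subset_span ⟨i, rfl⟩)) _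
  have h5 : (K • w) * (∑ i, t i • b i) = (M : ℤ) • (1 : DE E) := by
    rw [← ht, Finset.mul_sum]
    refine Finset.sum_congr rfl fun i _ => ?_
    rw [mul_smul_comm]
    rfl
  have h6 : (M : ℤ) • z = K • ∑ i, t i • b i := by
    have h7 : z * ((K • w) * (∑ i, t i • b i)) = K • ∑ i, t i • b i := by
      rw [← mul_assoc, hzx, smul_mul_assoc, one_mul]
    rw [← h7, h5, mul_smul_comm, mul_one]
  refine ⟨(M : ℤ), Int.natCast_ne_zero.2 hM, ?_⟩
  rw [← hz, h6]
  exact O.zsmul_mem hy K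

private theorem od_span (h : OX O) :
    Submodule.span ℝ {X : E →L[ℝ] E | RR O X (-X)} = ⊤ := by
  by_contra hne
  obtain ⟨f, hf, hle⟩ := Submodule.exists_le_ker_of_lt_top _ (lt_top_iff_ne_top.2 hne)
  apply hf
  obtain ⟨r, hr, hr1⟩ := rr_sqrt h
  have h1 : ∀ a a' : E →L[ℝ] E, RR O a a' → f (1 * a * 1) = 0 := by
    intro a a' ha
    have ha' := rr_swap h ha
    have h2 : RR O (a - a') (-(a - a')) := by
      rw [neg_sub]
      exact rr_sub ha ha'
    have h3 : RR O (r • a + r • a') (-(r • a + r • a')) := by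
      have h4 := rr_add (hr1 _ _ ha) (hr1 _ _ ha')
      rw [neg_add, add_comm (-(r • a))]
      exact h4
    have h5 : f (a - a') = 0 := hle (Submodule.subset_span h2)
    have h6 : f (r • a + r • a') = 0 := hle (Submodule.subset_span h3)
    rw [← smul_add, map_smul, smul_eq_mul] at h6
    have h7 : f (a + a') = 0 := (mul_eq_zero.1 h6).resolve_left hr.ne'
    rw [map_sub] at h5
    rw [map_add] at h7
    rw [one_mul, mul_one]
    linarith
  ext x
  have h2 := rr_corner1 h f 1 1 h1 x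
  rw [one_mul, mul_one] at h2
  rw [h2, LinearMap.zero_apply]

theorem skew_dense (h : OX O) (X : E →L[ℝ] E) {ε : ℝ} (hε : 0 < ε) :
    ∃ Y : E →L[ℝ] E, RR O Y (-Y) ∧ ‖Y - X‖ < ε := by
  have h1 : X ∈ Submodule.span ℝ {X : E →L[ℝ] E | RR O X (-X)} := by
    rw [od_span h]
    exact Submodule.mem_top
  have h2 : X ∈ closure {X : E →L[ℝ] E | RR O X (-X)} := by
    induction h1 using Submodule.span_induction with
    | mem x hx => exact subset_closure hx
    | zero =>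
      refine subset_closure ?_
      change RR O 0 (-0)
      rw [neg_zero]
      exact rr_zero O
    | add x y _ _ hx hy =>
      refine map_mem_closure₂ continuous_add hx hy fun a ha b hb => ?_
      change RR O (a + b) (-(a + b))
      rw [neg_add]
      exact rr_add ha hb
    | smul t x _ hx =>
      have ht : t ∈ closure (Set.range ((↑) : ℚ → ℝ)) := Rat.denseRange_cast t
      refine map_mem_closure₂ continuous_smul ht hx fun a ha b hb => ?_
      obtain ⟨q, rfl⟩ := ha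
      change RR O ((q : ℝ) • b) (-((q : ℝ) • b))
      rw [← smul_neg]
      exact rr_rat hb q
  obtain ⟨Y, hY, hd⟩ := Metric.mem_closure_iff.1 h2 ε hε
  refine ⟨Y, hY, ?_⟩
  rw [dist_comm, dist_eq_norm] at hd
  exact hd

private theorem od_ex (g : E →L[ℝ] E) : ∃ c : ℝ, c ≠ 0 ∧ IsUnit (1 + c • g) := by
  have : CompleteSpace E := FiniteDimensional.complete ℝ E
  refine ⟨(2 * (‖g‖ + 1))⁻¹, ?_, ?_⟩
  · have h1 : 0 < 2 * (‖g‖ + 1) := by positivity
    exact (inv_pos.2 h1).ne'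
  · have h1 : 0 < 2 * (‖g‖ + 1) := by positivity
    have h2 : ‖-((2 * (‖g‖ + 1))⁻¹ • g)‖ < 1 := by
      rw [norm_neg, norm_smul, norm_inv, Real.norm_of_nonneg h1.le, inv_mul_lt_iff₀ h1]
      have h3 := norm_nonneg g
      linarith
    have h3 := (Units.oneSub _ h2).isUnit
    rw [Units.val_oneSub, sub_neg_eq_add] at h3
    exact h3

private theorem od_unit {X : E →L[ℝ] E} (h : OX O) (hX : RR O X (-X))
    {u w : (E →L[ℝ] E)ˣ} (hu : (u : E →L[ℝ] E) = 1 - X) (hw : (w : E →L[ℝ] E) = 1 + X) :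
    ContinuousLinearEquiv.unitsEquiv ℝ E (w * u⁻¹) ∈ GQO O := by
  have h1 : RR O (w : E →L[ℝ] E) (u : E →L[ℝ] E) := by
    rw [hu, hw, sub_eq_add_neg]
    exact rr_add (rr_one O) hX
  have h2 : RR O (u : E →L[ℝ] E) (w : E →L[ℝ] E) := rr_swap h h1
  have h3 : RR O ((u⁻¹ : (E →L[ℝ] E)ˣ) : E →L[ℝ] E) ((w⁻¹ : (E →L[ℝ] E)ˣ) : E →L[ℝ] E) :=
    rr_inv h h2 u.mul_inv u.inv_mul w.mul_inv w.inv_mul
  have h4 := rr_mul h1 h3
  have hc : Commute (u : E →L[ℝ] E) (w : E →L[ℝ] E) := by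
    rw [hu, hw]
    change (1 - X) * (1 + X) = (1 + X) * (1 - X)
    noncomm_ring
  have hc' : Commute (u : E →L[ℝ] E) ((w⁻¹ : (E →L[ℝ] E)ˣ) : E →L[ℝ] E) := hc.units_inv_right
  refine gqo_of h ?_
  have e1 : ((ContinuousLinearEquiv.unitsEquiv ℝ E (w * u⁻¹) : GE E) : E →L[ℝ] E) =
      (w : E →L[ℝ] E) * ((u⁻¹ : (E →L[ℝ] E)ˣ) : E →L[ℝ] E) := rfl
  have e2 : (((ContinuousLinearEquiv.unitsEquiv ℝ E (w * u⁻¹))⁻¹ : GE E) : E →L[ℝ] E) =
      ((w⁻¹ : (E →L[ℝ] E)ˣ) : E →L[ℝ] E) * (u : E →L[ℝ] E) := by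
    rw [← map_inv, mul_inv_rev, inv_inv, ← hc'.eq]
    rfl
  rw [e1, e2]
  exact h4

private theorem od_near (h : OX O) (X0 : E →L[ℝ] E) (h1 : IsUnit (1 - X0)) (h2 : IsUnit (1 + X0))
    {ε : ℝ} (hε : 0 < ε) : ∃ g ∈ GQO O,
    ‖((g : GE E) : E →L[ℝ] E) - (1 + X0) * Ring.inverse (1 - X0)‖ < ε := by
  have : CompleteSpace E := FiniteDimensional.complete ℝ E
  have hc : ContinuousAt (fun X : E →L[ℝ] E => (1 + X) * Ring.inverse (1 - X)) X0 := by
    refine ContinuousAt.mul (by fun_prop) ?_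
    obtain ⟨u, hu⟩ := h1
    have h3 : ContinuousAt (Ring.inverse : (E →L[ℝ] E) → (E →L[ℝ] E)) (1 - X0) := by
      rw [← hu]
      exact NormedRing.inverse_continuousAt u
    exact ContinuousAt.comp (f := fun X : E →L[ℝ] E => 1 - X) h3 (by fun_prop)
  have e1 := Metric.continuousAt_iff.1 hc ε hε
  have e2 : IsOpen {X : E →L[ℝ] E | IsUnit (1 - X) ∧ IsUnit (1 + X)} := by
    refine IsOpen.and ?_ ?_
    · exact Units.isOpen.preimage (f := fun X : E →L[ℝ] E => 1 - X) (by fun_prop)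
    · exact Units.isOpen.preimage (f := fun X : E →L[ℝ] E => 1 + X) (by fun_prop)
  obtain ⟨d1, hd1, hd1'⟩ := e1
  obtain ⟨d2, hd2, hd2'⟩ := Metric.isOpen_iff.1 e2 X0 ⟨h1, h2⟩
  obtain ⟨Y, hY, hYd⟩ := skew_dense h X0 (lt_min hd1 hd2)
  have g1 : dist Y X0 < d1 := by
    rw [dist_eq_norm]
    exact hYd.trans_le (min_le_left _ _)
  have g2 : Y ∈ Metric.ball X0 d2 := by
    rw [Metric.mem_ball, dist_eq_norm]
    exact hYd.trans_le (min_le_right _ _)
  obtain ⟨⟨u, hu⟩, ⟨w, hw⟩⟩ := hd2' g2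
  refine ⟨ContinuousLinearEquiv.unitsEquiv ℝ E (w * u⁻¹), od_unit h hY hu hw, ?_⟩
  have g3 := hd1' g1
  rw [dist_eq_norm] at g3
  have g4 : ((ContinuousLinearEquiv.unitsEquiv ℝ E (w * u⁻¹) : GE E) : E →L[ℝ] E) =
      (1 + Y) * Ring.inverse (1 - Y) := by
    rw [← hu, ← hw, Ring.inverse_unit]
    rfl
  rw [g4]
  exact g3

theorem den_O (h : OX O) : DenP (GQO O) := by
  intro g0
  obtain ⟨c, hc, y1, hy1⟩ := od_ex (g0 : E →L[ℝ] E)
  refine ⟨c, hc, fun ε hε => ?_⟩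
  obtain ⟨y0, hy0⟩ : IsUnit (g0 : E →L[ℝ] E) :=
    ⟨(ContinuousLinearEquiv.unitsEquiv ℝ E).symm g0, rfl⟩
  set y : E →L[ℝ] E := c • (g0 : E →L[ℝ] E) with hy
  have hyu : IsUnit y := by
    rw [hy, ← hy0]
    exact ((Units.mk0 c hc) • y0).isUnit
  set i1 : E →L[ℝ] E := ((y1⁻¹ : (E →L[ℝ] E)ˣ) : E →L[ℝ] E) with hi1
  have q1 : (1 + y) * i1 = 1 := by
    rw [← hy1]
    exact y1.mul_inv
  have q2 : i1 * (1 + y) = 1 := by
    rw [← hy1]
    exact y1.inv_mul
  have e1 : 1 - (y - 1) * i1 = (2 : ℝ) • i1 := by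
    have e3 : 1 - (y - 1) * i1 = (1 + y) * i1 - (y - 1) * i1 := by rw [q1]
    rw [e3, two_smul]
    noncomm_ring
  have e2 : 1 + (y - 1) * i1 = (2 : ℝ) • (y * i1) := by
    have e3 : 1 + (y - 1) * i1 = (1 + y) * i1 + (y - 1) * i1 := by rw [q1]
    rw [e3, two_smul]
    noncomm_ring
  have u1 : IsUnit (1 - (y - 1) * i1) := by
    rw [e1]
    exact ((Units.mk0 (2 : ℝ) two_ne_zero) • y1⁻¹).isUnit
  have u2 : IsUnit (1 + (y - 1) * i1) := by
    rw [e2]
    obtain ⟨y2, hy2⟩ := hyu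
    rw [← hy2]
    exact ((Units.mk0 (2 : ℝ) two_ne_zero) • (y2 * y1⁻¹)).isUnit
  obtain ⟨g, hg, hg1⟩ := od_near h ((y - 1) * i1) u1 u2 hε
  refine ⟨g, hg, ?_⟩
  have e4 : (1 + (y - 1) * i1) * Ring.inverse (1 - (y - 1) * i1) = y := by
    have e5 : (1 - (y - 1) * i1) * (((2 : ℝ)⁻¹) • (1 + y)) = 1 := by
      rw [e1, smul_mul_smul_comm, q2, mul_inv_cancel₀ two_ne_zero, one_smul]
    have e6 : (((2 : ℝ)⁻¹) • (1 + y)) = Ring.inverse (1 - (y - 1) * i1) := by
      have e7 : Ring.inverse (1 - (y - 1) * i1) * ((1 - (y - 1) * i1) * (((2 : ℝ)⁻¹) • (1 + y))) =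
          ((2 : ℝ)⁻¹) • (1 + y) := by
        rw [← mul_assoc, Ring.inverse_mul_cancel _ u1, one_mul]
      rw [← e7, e5, mul_one]
    rw [← e6, e2, smul_mul_smul_comm, mul_assoc, q2, mul_inv_cancel₀ two_ne_zero, one_smul,
      mul_one]
  rw [e4] at hg1
  exact hg1

end
end LatLin
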