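import Pool.Agent.Lib.MP_2392aa_gt.C.FinI
import Pool.Agent.Lib.MP_2392aa_gt.J.InnAcc
import Pool.Agent.Lib.MP_2392aa_gt.J.OutAcc
import Pool.Agent.Lib.MP_2392aa_gt.J.OutDen

/-!
MP_2392aa_gt, second question, module FinJ (about 150 lines): `InjRel` for inner and outer type.

PROOFS.
* `injRel_sub`: `injRel_of` for the subgroup `G1.map (slG ν)` and transport to `stdR G1` (`LatN.InjRel.of_hom`: the two
  representations have the same image).
* `injRel_I`: `e = prj δ {i0}` (`isPr_prj`, `prj_nonzero`, `prj_zero`: `e ≠ 0`, `e ≠ 1` since `card μ ≥ 2`), `𝒬 = GQ μ D0`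
  (`den_I`), `G = G1.map (slG (μ × δ)) ∈ CC μ D0` (`cc_map`), `cjG g G ∈ CC μ D0` (`cc_conj`), `acc_I`. Contraction:
  `(contr_conn_stdR G1 (LatN.noHorn_innO .. (LatN.blkO_inn hD hδ) h1 h2)).1` as in `linG_inner`.
* `injRel_O`: `injRel_of` with `e`, `𝒬 = GQO O`: `e ≠ 1` because `e (e' x) = 0` and `e' ≠ 0` (`h.symm.ne`), `den_O h.ox`,
  `cco_conj`, `acc_O`: if `mid e e' = 0` then `x = e x + e' x`, `3 ≤ finrank E ≤ 2 finrank (range e)` (`corn_dim`), so
  `2 ≤ finrank (range e)`.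
-/

open scoped ContDiff Topology
open MulOpposite
open LatN (DivO blo blkO unitI En)

namespace LatLin

section
universe u
variable {μ δ : Type u} [Fintype μ] [DecidableEq μ] [Fintype δ] [DecidableEq δ]
  {D0 : Subring (Matrix δ δ ℝ)}

theorem injRel_sub {ν : Type*} [Fintype ν] [DecidableEq ν]
    (G1 : Subgroup (Matrix.SpecialLinearGroup ν ℝ))
    (h : LatN.InjRel (G1.map (slG ν)).subtype) : LatN.InjRel (stdR G1) := by
  refine LatN.InjRel.of_hom h ?_
  rintro ⟨_, s, hs, rfl⟩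
  exact ⟨⟨s, hs⟩, rfl⟩

theorem injRel_I (hD : DivO δ D0) (hδ : 2 ≤ Fintype.card δ) (hμ : 2 ≤ Fintype.card μ)
    (G1 : Subgroup (Matrix.SpecialLinearGroup (μ × δ) ℝ)) (h1 : G1 ≤ unitI (blkO μ D0))
    (h2 : G1.relIndex (unitI (blkO μ D0)) ≠ 0) : LatN.InjRel (stdR G1) := by
  have hδ0 : Nonempty δ := Fintype.card_pos_iff.1 (by omega)
  have hμ0 : Nonempty μ := Fintype.card_pos_iff.1 (by omega)
  obtain ⟨i0⟩ := id hμ0
  have hC := cc_map G1 h1 h2
  have hne1 : ({i0} : Finset μ) ≠ Finset.univ := by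
    intro h
    have h3 := congrArg Finset.card h
    rw [Finset.card_singleton, Finset.card_univ] at h3
    omega
  obtain ⟨v, hv0, hv⟩ := prj_nonzero (δ := δ) (s := ({i0} : Finset μ)) (Finset.singleton_nonempty i0)
  obtain ⟨u, hu0, hu⟩ := prj_zero (δ := δ) hne1
  refine injRel_sub G1 (injRel_of (e := prj δ {i0}) (𝒬 := GQ μ D0) (isPr_prj _).idem ?_ ?_
    (den_I hD) (fun g hg => acc_I hD hδ i0 (cc_conj hD hg hC)) ?_)
  · intro h
    rw [h] at hv
    exact hv0 hv.symm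
  · intro h
    rw [h] at hu
    exact hu0 hu
  · intro x t ht
    obtain ⟨γ, hγ⟩ := (contr_conn_stdR G1 (LatN.noHorn_innO
      (by rw [Fintype.card_prod]; nlinarith) (LatN.blkO_inn hD hδ) h1 h2)).1 x t ht
    exact ⟨slG _ γ.1, ⟨γ.1, γ.2, rfl⟩, hγ⟩

end

section
variable {E : Type*} [NormedAddCommGroup E] [InnerProductSpace ℝ E] [FiniteDimensional ℝ E]
  {O : Subring (DE E)} {e e' : E →L[ℝ] E}

theorem injRel_O (h : OD O e e') (hn : 3 ≤ Module.finrank ℝ E) {G : Subgroup (GE E)}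
    (hG : G ∈ CCO O) (hC : ∀ x : E, ∀ t > 0, ∃ γ ∈ G, ‖(γ : GE E) x‖ ≤ t) :
    LatN.InjRel G.subtype := by
  have hne1 : e ≠ 1 := by
    intro h1
    apply h.symm.ne
    ext x
    have h2 := h.pp.o x
    rw [h1] at h2
    exact h2
  have hd : mid e e' ≠ 0 ∨ 2 ≤ Module.finrank ℝ (LinearMap.range (e : E →ₗ[ℝ] E)) := by
    by_contra hcon
    push Not at hcon
    obtain ⟨h1, h2⟩ := hcon
    have h3 := corn_dim h
    have h4 : LinearMap.range (e : E →ₗ[ℝ] E) ⊔ LinearMap.range (e' : E →ₗ[ℝ] E) = ⊤ := by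
      rw [eq_top_iff]
      intro x _
      have h5 : mid e e' x = 0 := by rw [h1]; rfl
      rw [mid_apply, sub_sub, sub_eq_zero] at h5
      rw [h5]
      exact Submodule.add_mem_sup ⟨x, rfl⟩ ⟨x, rfl⟩
    have h6 := Submodule.finrank_add_le_finrank_add_finrank
      (LinearMap.range (e : E →ₗ[ℝ] E)) (LinearMap.range (e' : E →ₗ[ℝ] E))
    rw [h4, finrank_top] at h6
    omega
  exact injRel_of (𝒬 := GQO O) h.pp.pr.idem h.ne hne1 (den_O h.ox)
    (fun g hg => acc_O h hd (cco_conj h.ox hg hG)) hC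

end
end LatLin
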