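import Pool.Agent.Lib.MP_2392aa_gt.O.LatO
import Pool.Agent.Lib.MP_2392aa_gt.O.CornO

/-!
MP_2392aa_gt, second question, module OutEx (about 250 lines): outer type, existence of rational elements.

Notation: `f = mid e e'`. Products of pairs: `(a, op a') (c, op c') = (a c, op (c' a'))`; `RR O e e'`, `RR O e' e`
(`rr_swap`), `RR O f f` (`rr_mid`). For a rational pair `(x, x')` the pair `(e x f, op (f x' e'))` is rational, and so is
`(e x e', op (e x' e'))`.

PROOFS.
* `ex_a`: if `e x f y = 0` for all rational pairs `(x, x')` then, by `rr_corner1` applied to the functionals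
  `z ↦ ℓ (z y)`, `e z f y = 0` for all operators `z`; impossible (`f y ≠ 0`, `e ≠ 0`: take
  `z = ro (f y) v` with `e v = v ≠ 0`). Take `a = e x f`, `a' = f x' e'`; `a y = e x f y ≠ 0`.
* `ex_a'`: the same for the exchanged pairs `(x', x)` (`rr_swap`): some rational `(x, x')` has `f x' e' y ≠ 0`.
* `ex_sqrt`: `h.sqrt` and `rr_mul` (`(√D, op (-√D)) (a, op a') = (√D a, op (- √D a'))`).
* `skew_span`: for a rational pair `(x, x')` put `t = e x e'`, `t' = e x' e'`: `RR O t t'`, so `RR O (t - t') (t' - t)`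
  (`rr_swap`, `rr_sub`), and with `r` from `rr_sqrt` `RR O (r t) (- r t')`, so the pair of `r t + r t'` and its negative is
  rational. Hence `t` is in the real span. A linear functional on operators vanishing on the span vanishes on
  all `e x e'`, `x` rational, so (`rr_corner1`) on all `e z e'`; so `x = e x e'` is in the span (finite dimension:
  a vector on which all functionals vanishing on a subspace vanish is in the subspace).
* `lat_mul`: `RR O Y (-Y)`, so by `cco_te` `te (m Y) ∈ G` for some natural `m ≠ 0`; the last property in `Lat2` for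
  `a = m Y` gives `M' ≠ 0` with `M' m Y` in the span. For finitely many `Y` take the product of the multiples.
-/

open scoped ContDiff Topology
open MulOpposite

namespace LatLin

section
variable {E : Type*} [NormedAddCommGroup E] [InnerProductSpace ℝ E] [FiniteDimensional ℝ E]
  {O : Subring (DE E)} {e e' : E →L[ℝ] E}

omit [FiniteDimensional ℝ E] in
private theorem oe_ee (h : PP e e') : e * e = e := by
  ext x
  exact h.pr.idem x

omit [FiniteDimensional ℝ E] in
private theorem oe_ee' (h : PP e e') : e' * e' = e' := by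
  ext x
  exact h.pr'.idem x

omit [FiniteDimensional ℝ E] in
private theorem oe_ff (h : PP e e') : mid e e' * mid e e' = mid e e' := by
  ext x
  show mid e e' (mid e e' x) = mid e e' x
  simp only [mid_apply, map_sub, h.pr.idem, h.pr'.idem, h.o, h.o']
  abel

theorem ex_a (h : OD O e e') {y : E} (hy : mid e e' y ≠ 0) : ∃ a a' : E →L[ℝ] E, RR O a a' ∧
    e * a * mid e e' = a ∧ mid e e' * a' * e' = a' ∧ a y ≠ 0 := by
  have hm : mid e' e = mid e e' := mid_symm e' e
  obtain ⟨r, r', h1, h2, h3, h4⟩ := corn_vec h.symm (y := y) (by rw [hm]; exact hy)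
  rw [hm] at h2 h3
  exact ⟨r, r', h1, h2, h3, h4⟩

theorem ex_a' (h : OD O e e') (hN : mid e e' ≠ 0) {y : E} (hy : e' y ≠ 0) :
    ∃ a a' : E →L[ℝ] E, RR O a a' ∧
    e * a * mid e e' = a ∧ mid e e' * a' * e' = a' ∧ a' y ≠ 0 := by
  have ee := oe_ee h.pp
  have ee' := oe_ee' h.pp
  have ff := oe_ff h.pp
  have hsw := rr_swap h.ox h.rat
  obtain ⟨v, hv, hv'⟩ : ∃ v : E, mid e e' v = v ∧ v ≠ 0 := by
    by_contra hc
    push Not at hc
    apply hN
    ext x
    have h1 : mid e e' (mid e e' x) = mid e e' x := congrArg (fun g => g x) ff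
    have h2 := hc (mid e e' x) h1
    rw [h2]
    rfl
  obtain ⟨z, z', hz, hz0⟩ : ∃ z z' : E →L[ℝ] E, RR O z z' ∧ (mid e e' * z * e') y ≠ 0 := by
    by_contra hc
    push Not at hc
    have h1 := rr_corner1 h.ox (O := O)
      { toFun := fun A : E →L[ℝ] E => (inner ℝ v (A y) : ℝ)
        map_add' := fun A B => by
          rw [add_apply, inner_add_right]
        map_smul' := fun c A => by
          rw [smul_apply, inner_smul_right]
          rfl } (mid e e') e' (fun a a' ha => by
        show (inner ℝ v ((mid e e' * a * e') y) : ℝ) = 0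
        rw [hc a a' ha, inner_zero_right]) (ro (e' y) v)
    have h2 : (inner ℝ v (mid e e' (ro (e' y) v (e' y))) : ℝ) = 0 := h1
    rw [ro_apply, map_smul, hv, inner_smul_right] at h2
    rcases mul_eq_zero.1 h2 with h3 | h3
    · exact hy (inner_self_eq_zero.1 h3)
    · exact hv' (inner_self_eq_zero.1 h3)
  refine ⟨e * z' * mid e e', mid e e' * (z * e'),
    rr_mul (rr_mul h.rat (rr_swap h.ox hz)) (rr_mid h), ?_, ?_, hz0⟩
  · rw [← mul_assoc, ← mul_assoc, ee, mul_assoc, ff]
  · rw [← mul_assoc, ff, mul_assoc, mul_assoc, ee']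

theorem ex_sqrt (h : OX O) : ∃ D : ℕ, ¬ IsSquare D ∧ ∀ a a' : E →L[ℝ] E, RR O a a' →
    RR O (Real.sqrt D • a) (-(Real.sqrt D • a')) := by
  obtain ⟨D, hD, h4⟩ := h.sqrt
  refine ⟨D, hD, fun a a' h1 => ?_⟩
  have h5 : RR O (Real.sqrt D • (1 : E →L[ℝ] E)) (-(Real.sqrt D • (1 : E →L[ℝ] E))) :=
    ⟨1, one_ne_zero, by rw [one_smul]; exact h4⟩
  have h6 := rr_mul h5 h1
  rw [smul_mul_assoc, one_mul, mul_neg, mul_smul_comm, mul_one] at h6
  exact h6

theorem skew_span (h : OD O e e') {x : E →L[ℝ] E} (hx : e * x * e' = x) :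
    x ∈ Submodule.span ℝ {s : E →L[ℝ] E | RR O s (-s) ∧ e * s * e' = s} := by
  have ee := oe_ee h.pp
  have ee' := oe_ee' h.pp
  have hsw := rr_swap h.ox h.rat
  have key : ∀ z z' : E →L[ℝ] E, RR O z z' →
      e * z * e' ∈ Submodule.span ℝ {s : E →L[ℝ] E | RR O s (-s) ∧ e * s * e' = s} := by
    intro z z' hz
    have hζ := rr_mul (rr_mul h.rat hz) hsw
    rw [← mul_assoc e z' e'] at hζ
    have t1 : e * (e * z * e') * e' = e * z * e' := by
      rw [← mul_assoc, ← mul_assoc, ee, mul_assoc, ee']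
    have t2 : e * (e * z' * e') * e' = e * z' * e' := by
      rw [← mul_assoc, ← mul_assoc, ee, mul_assoc, ee']
    set t := e * z * e' with ht
    set t' := e * z' * e' with ht'
    obtain ⟨r, hr, hr'⟩ := rr_sqrt h.ox
    have s1 : t - t' ∈ Submodule.span ℝ {s : E →L[ℝ] E | RR O s (-s) ∧ e * s * e' = s} := by
      apply Submodule.subset_span
      refine ⟨?_, ?_⟩
      · rw [neg_sub]
        exact rr_sub hζ (rr_swap h.ox hζ)
      · rw [mul_sub, sub_mul, t1, t2]
    have s2 : r • t + r • t' ∈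
        Submodule.span ℝ {s : E →L[ℝ] E | RR O s (-s) ∧ e * s * e' = s} := by
      apply Submodule.subset_span
      have h1 := hr' _ _ hζ
      have h2 := rr_sub h1 (rr_swap h.ox h1)
      refine ⟨?_, ?_⟩
      · have e1 : r • t - -(r • t') = r • t + r • t' := by abel
        have e2 : -(r • t') - r • t = -(r • t + r • t') := by abel
        rw [e1, e2] at h2
        exact h2
      · rw [mul_add, add_mul, mul_smul_comm, smul_mul_assoc, t1, mul_smul_comm, smul_mul_assoc, t2]
    have e3 : t = (1 / 2 : ℝ) • (t - t') + (1 / (2 * r)) • (r • t + r • t') := by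
      have h5 : (1 / (2 * r)) • (r • t + r • t') = (1 / 2 : ℝ) • (t + t') := by
        rw [← smul_add, smul_smul]
        congr 1
        field_simp
      rw [h5]
      module
    rw [e3]
    exact Submodule.add_mem _ (Submodule.smul_mem _ _ s1) (Submodule.smul_mem _ _ s2)
  by_contra hnot
  obtain ⟨f, hf, hle⟩ := Submodule.exists_dual_map_eq_bot_of_notMem hnot inferInstance
  apply hf
  have h1 := rr_corner1 h.ox f e e' (fun a a' ha => by
    have h2 := Submodule.mem_map_of_mem (f := f) (key a a' ha)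
    rw [hle] at h2
    exact (Submodule.mem_bot ℝ).1 h2) x
  rwa [hx] at h1

theorem lat_mul (h : OX O) {G : Subgroup (GE E)} (hG : G ∈ CCO O)
    {u : Submodule ℝ (E →L[ℝ] E)} (hu : N3 u) {n : ℕ} {c : Fin n → (E →L[ℝ] E)}
    (hc : ∀ a ∈ u, te a ∈ G → ∃ M : ℕ, M ≠ 0 ∧ (M : ℤ) • a ∈ Submodule.span ℤ (Set.range c))
    {m : ℕ} (Y : Fin m → (E →L[ℝ] E)) (hY : ∀ i, Y i ∈ u) (hY' : ∀ i, RR O (Y i) (-(Y i))) :
    ∃ M : ℕ, M ≠ 0 ∧ ∀ i, (M : ℤ) • Y i ∈ Submodule.span ℤ (Set.range c) := by
  have key : ∀ i, ∃ A : ℕ, A ≠ 0 ∧ (A : ℤ) • Y i ∈ Submodule.span ℤ (Set.range c) := by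
    intro i
    have hcube : Y i ∘L Y i ∘L Y i = 0 := hu.cube _ (hY i) _ (hY i) _ (hY i)
    obtain ⟨M1, hM1, h1⟩ := cco_te h hG hcube (hY' i)
    have h2 := h1 (M1 : ℤ) dvd_rfl
    obtain ⟨M2, hM2, h3⟩ := hc _ (u.smul_mem _ (hY i)) h2
    refine ⟨M2 * M1, mul_ne_zero hM2 hM1, ?_⟩
    have e1 : ((M2 * M1 : ℕ) : ℤ) • Y i = (M2 : ℤ) • (((M1 : ℤ) : ℝ) • Y i) := by
      rw [Int.cast_smul_eq_zsmul, smul_smul, Nat.cast_mul]
    rw [e1]
    exact h3
  choose A hA hA' using key
  refine ⟨∏ j, A j, Finset.prod_ne_zero_iff.2 (fun j _ => hA j), fun i => ?_⟩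
  obtain ⟨k, hk⟩ := Finset.dvd_prod_of_mem A (Finset.mem_univ i)
  rw [hk, mul_comm, Nat.cast_mul, ← smul_smul]
  exact Submodule.smul_mem _ _ (hA' i)

end
end LatLin
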